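import Mathlib

-- part Pool.Agent.Lib.MP_3e1e08_co.Basic
section

/-! Level paths: a path is a sequence of levels; a step of level `l` goes in direction `l % 4`
(east, south, west, north). Prefix sums and the basic structure lemmas. -/

namespace Pool.Agent.Lib.MP_3e1e08_co

/-- component along direction `d` of a step of level `l` -/
def w (d l : ℕ) : ℤ := if l % 4 = d % 4 then 1 else if (l + 2) % 4 = d % 4 then -1 else 0
/-- level at most `i` -/
def D (i l : ℕ) : ℤ := if l ≤ i then 1 else 0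
/-- level below `k` -/
def Dlt (k l : ℕ) : ℤ := if l < k then 1 else 0
/-- level at least `i + 2` -/
def U (i l : ℕ) : ℤ := if i + 2 ≤ l then 1 else 0
/-- level equal to `j` -/
def Lv (j l : ℕ) : ℤ := if l = j then 1 else 0
/-- nonzero level -/
def NZ (l : ℕ) : ℤ := if l = 0 then 0 else 1
/-- progress in direction `j + 1` made by steps of level above `j` -/
def fA (j l : ℕ) : ℤ := if j + 1 ≤ l then w (j + 1) l else 0

/-- prefix sum of `f` along the level path `lv` -/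
def S (lv : ℕ → ℕ) (f : ℕ → ℤ) (a : ℕ) : ℤ := ∑ t ∈ Finset.range a, f (lv t)

theorem S_zero (lv : ℕ → ℕ) (f : ℕ → ℤ) : S lv f 0 = 0 := by simp [S]

theorem S_succ (lv : ℕ → ℕ) (f : ℕ → ℤ) (a : ℕ) : S lv f (a + 1) = S lv f a + f (lv a) := by
  simp [S, Finset.sum_range_succ]

theorem S_congr {lv lv' : ℕ → ℕ} (f : ℕ → ℤ) {x a : ℕ} (h : ∀ t, t < x → lv' t = lv t)
    (ha : a ≤ x) : S lv' f a = S lv f a := by
  unfold S
  refine Finset.sum_congr rfl fun t ht => ?_
  rw [h t (lt_of_lt_of_le (Finset.mem_range.1 ht) ha)]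

theorem comb5 (lv : ℕ → ℕ) {a b : ℕ} (hab : a ≤ b) (c0 c1 c2 c3 c4 c5 : ℤ)
    (f1 f2 f3 f4 f5 : ℕ → ℤ)
    (h : ∀ t, a ≤ t → t < b →
      0 ≤ c0 + c1 * f1 (lv t) + c2 * f2 (lv t) + c3 * f3 (lv t) + c4 * f4 (lv t) + c5 * f5 (lv t)) :
    0 ≤ c0 * ((b : ℤ) - a) + c1 * (S lv f1 b - S lv f1 a) + c2 * (S lv f2 b - S lv f2 a)
      + c3 * (S lv f3 b - S lv f3 a) + c4 * (S lv f4 b - S lv f4 a)
      + c5 * (S lv f5 b - S lv f5 a) := by
  induction b, hab using Nat.le_induction with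
  | base => simp
  | succ b hb ih =>
    have h1 := ih fun t h1 h2 => h t h1 (by omega)
    have h2 := h b hb (by omega)
    simp only [S_succ]
    push_cast
    nlinarith

theorem comb4 (lv : ℕ → ℕ) {a b : ℕ} (hab : a ≤ b) (c0 c1 c2 c3 c4 : ℤ) (f1 f2 f3 f4 : ℕ → ℤ)
    (h : ∀ t, a ≤ t → t < b →
      0 ≤ c0 + c1 * f1 (lv t) + c2 * f2 (lv t) + c3 * f3 (lv t) + c4 * f4 (lv t)) :
    0 ≤ c0 * ((b : ℤ) - a) + c1 * (S lv f1 b - S lv f1 a) + c2 * (S lv f2 b - S lv f2 a)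
      + c3 * (S lv f3 b - S lv f3 a) + c4 * (S lv f4 b - S lv f4 a) := by
  have := comb5 lv hab c0 c1 c2 c3 c4 0 f1 f2 f3 f4 f1 fun t h1 h2 => by
    have := h t h1 h2; linarith
  linarith

theorem comb3 (lv : ℕ → ℕ) {a b : ℕ} (hab : a ≤ b) (c0 c1 c2 c3 : ℤ) (f1 f2 f3 : ℕ → ℤ)
    (h : ∀ t, a ≤ t → t < b → 0 ≤ c0 + c1 * f1 (lv t) + c2 * f2 (lv t) + c3 * f3 (lv t)) :
    0 ≤ c0 * ((b : ℤ) - a) + c1 * (S lv f1 b - S lv f1 a) + c2 * (S lv f2 b - S lv f2 a)
      + c3 * (S lv f3 b - S lv f3 a) := by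
  have := comb4 lv hab c0 c1 c2 c3 0 f1 f2 f3 f1 fun t h1 h2 => by
    have := h t h1 h2; linarith
  linarith

theorem comb2 (lv : ℕ → ℕ) {a b : ℕ} (hab : a ≤ b) (c0 c1 c2 : ℤ) (f1 f2 : ℕ → ℤ)
    (h : ∀ t, a ≤ t → t < b → 0 ≤ c0 + c1 * f1 (lv t) + c2 * f2 (lv t)) :
    0 ≤ c0 * ((b : ℤ) - a) + c1 * (S lv f1 b - S lv f1 a) + c2 * (S lv f2 b - S lv f2 a) := by
  have := comb3 lv hab c0 c1 c2 0 f1 f2 f1 fun t h1 h2 => by
    have := h t h1 h2; linarith
  linarith

theorem comb1 (lv : ℕ → ℕ) {a b : ℕ} (hab : a ≤ b) (c0 c1 : ℤ) (f1 : ℕ → ℤ)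
    (h : ∀ t, a ≤ t → t < b → 0 ≤ c0 + c1 * f1 (lv t)) :
    0 ≤ c0 * ((b : ℤ) - a) + c1 * (S lv f1 b - S lv f1 a) := by
  have := comb2 lv hab c0 c1 0 f1 f1 fun t h1 h2 => by
    have := h t h1 h2; linarith
  linarith

theorem S_eq2 (lv : ℕ → ℕ) {a b : ℕ} (hab : a ≤ b) (f g : ℕ → ℤ)
    (h : ∀ t, a ≤ t → t < b → f (lv t) = g (lv t)) :
    S lv f b - S lv f a = S lv g b - S lv g a := by
  have h1 := comb2 lv hab 0 1 (-1) f g fun t h1 h2 => by have := h t h1 h2; linarith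
  have h2 := comb2 lv hab 0 (-1) 1 f g fun t h1 h2 => by have := h t h1 h2; linarith
  linarith

theorem S_const (lv : ℕ → ℕ) {a b : ℕ} (hab : a ≤ b) (f : ℕ → ℤ) (c : ℤ)
    (h : ∀ t, a ≤ t → t < b → f (lv t) = c) : S lv f b = S lv f a + c * ((b : ℤ) - a) := by
  have h1 := comb1 lv hab c (-1) f fun t h1 h2 => by have := h t h1 h2; linarith
  have h2 := comb1 lv hab (-c) 1 f fun t h1 h2 => by have := h t h1 h2; linarith
  linarith

theorem S_01 (lv : ℕ → ℕ) {a b : ℕ} (hab : a ≤ b) (f : ℕ → ℤ) (h : ∀ l, 0 ≤ f l ∧ f l ≤ 1) :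
    S lv f a ≤ S lv f b ∧ S lv f b - S lv f a ≤ (b : ℤ) - a := by
  have h1 := comb1 lv hab 0 1 f fun t _ _ => by have := h (lv t); linarith [this.1]
  have h2 := comb1 lv hab 1 (-1) f fun t _ _ => by have := h (lv t); linarith [this.2]
  constructor <;> linarith

theorem D01 (i l : ℕ) : 0 ≤ D i l ∧ D i l ≤ 1 := by unfold D; split_ifs <;> omega
theorem Dlt01 (i l : ℕ) : 0 ≤ Dlt i l ∧ Dlt i l ≤ 1 := by unfold Dlt; split_ifs <;> omega
theorem U01 (i l : ℕ) : 0 ≤ U i l ∧ U i l ≤ 1 := by unfold U; split_ifs <;> omega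
theorem Lv01 (i l : ℕ) : 0 ≤ Lv i l ∧ Lv i l ≤ 1 := by unfold Lv; split_ifs <;> omega
theorem NZ01 (l : ℕ) : 0 ≤ NZ l ∧ NZ l ≤ 1 := by unfold NZ; split_ifs <;> omega

theorem u_lip (lv : ℕ → ℕ) {a b : ℕ} (hab : a ≤ b) (d : ℕ) :
    S lv (w d) b - S lv (w d) a ≤ (b : ℤ) - a ∧ S lv (w d) a - S lv (w d) b ≤ (b : ℤ) - a := by
  have h1 := comb1 lv hab 1 1 (w d) fun t _ _ => by unfold w; split_ifs <;> omega
  have h2 := comb1 lv hab 1 (-1) (w d) fun t _ _ => by unfold w; split_ifs <;> omega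
  constructor <;> linarith

theorem u_two (lv : ℕ → ℕ) (d a : ℕ) : S lv (w (d + 2)) a = - S lv (w d) a := by
  induction a with
  | zero => simp [S]
  | succ a ih =>
    rw [S_succ, S_succ, ih]
    have : w (d + 2) (lv a) = - w d (lv a) := by unfold w; split_ifs <;> omega
    linarith

theorem u_four (lv : ℕ → ℕ) (d a : ℕ) : S lv (w (d + 4)) a = S lv (w d) a := by
  have h1 := u_two lv (d + 2) a
  have h2 := u_two lv d a
  rw [show d + 4 = d + 2 + 2 by ring, h1, h2]; ring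

theorem downInd {P : ℕ → Prop} (B : ℕ) (h0 : ∀ j, B ≤ j → P j)
    (hs : ∀ j, j < B → P (j + 1) → P j) : ∀ j, P j := by
  intro j
  by_cases hj : B ≤ j
  · exact h0 j hj
  · have : ∀ d j, j + d = B → P j := by
      intro d
      induction d with
      | zero => intro j h; exact h0 j (by omega)
      | succ d ih => intro j h; exact hs j (by omega) (ih (j + 1) (by omega))
    exact this (B - j) j (by omega)

theorem lastP (P : ℕ → Prop) {a b : ℕ} (ha : P a) (hab : a ≤ b) :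
    ∃ p, a ≤ p ∧ p ≤ b ∧ P p ∧ ∀ t, p < t → t ≤ b → ¬ P t := by
  classical
  refine ⟨Nat.findGreatest P b, Nat.le_findGreatest hab ha, Nat.findGreatest_le b,
    Nat.findGreatest_spec hab ha, fun t h1 h2 => Nat.findGreatest_is_greatest h1 h2⟩

theorem firstP (P : ℕ → Prop) {a b : ℕ} (hb : P b) (hab : a ≤ b) :
    ∃ p, a ≤ p ∧ p ≤ b ∧ P p ∧ ∀ t, a ≤ t → t < p → ¬ P t := by
  classical
  have hex : ∃ p, a ≤ p ∧ P p := ⟨b, hab, hb⟩
  refine ⟨Nat.find hex, (Nat.find_spec hex).1, Nat.find_min' hex ⟨hab, hb⟩,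
    (Nat.find_spec hex).2, fun t h1 h2 h3 => Nat.find_min hex h2 ⟨h1, h3⟩⟩

/-- nestedness invariant -/
def NInv (lv : ℕ → ℕ) : Prop :=
  ∀ j a b, a ≤ b → lv b ≤ j →
    S lv (fA (j + 1)) b - S lv (fA (j + 1)) a ≤ 2 * (S lv (fA j) b - S lv (fA j) a)

theorem NInv.undo {lv : ℕ → ℕ} (h : NInv lv) {a b : ℕ} (hab : a ≤ b) (j : ℕ) (hb : lv b ≤ j) :
    S lv (fA j) a ≤ S lv (fA j) b := by
  revert hb
  refine downInd (P := fun j => lv b ≤ j → S lv (fA j) a ≤ S lv (fA j) b)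
    ((Finset.range b).sup lv) ?_ ?_ j
  · intro j hj _
    have := S_const lv hab (fA j) 0 fun t _ h2 => by
      have : lv t ≤ (Finset.range b).sup lv := Finset.le_sup (f := lv) (Finset.mem_range.2 h2)
      unfold fA; rw [if_neg (by omega)]
    linarith
  · intro j _ ih hb
    have h1 := ih (by omega)
    have h2 := h j a b hab hb
    linarith

/-- no long run of low levels followed by a long run of high levels in the window -/
def HW (C : ℕ) (lv : ℕ → ℕ) (i y x z : ℕ) : Prop :=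
  10 ^ 12 * (S lv (D i) x - S lv (D i) y) ≤ ((z : ℤ) - y) + 10 ^ 12 * C ∨
    10 ^ 12 * (S lv (U i) z - S lv (U i) x) ≤ ((z : ℤ) - y) + 10 ^ 12 * C

structure Good (C : ℕ) (lv : ℕ → ℕ) (τ : ℕ) : Prop where
  hN : NInv lv
  hH : ∀ i y x z, y ≤ x → x ≤ z → z ≤ τ → HW C lv i y x z
  hB : ∀ g, 10 ^ 12 * S lv NZ g ≤ g

theorem richStart {C : ℕ} {lv : ℕ → ℕ} {τ : ℕ} (hC : 1 ≤ C) (h : Good C lv τ) (l : ℕ)
    {y0 g : ℕ} (hg : g ≤ τ) (hL : y0 + 1000 * C ≤ g)
    (hp : 100 * (S lv (D l) g - S lv (D l) y0) ≤ (g : ℤ) - y0) :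
    ∃ p, p ≤ y0 ∧ (g : ℤ) - p ≤ 10 * (S lv (D l) g - S lv (D l) p) ∧
      100 * (S lv (D l) g - S lv (D l) p) ≤ 11 * ((g : ℤ) - p) ∧
      100 * (S lv (U l) g - S lv (U l) p) ≤ 6 * ((g : ℤ) - p) := by
  have h0 : (g : ℤ) - (0 : ℕ) ≤ 10 * (S lv (D l) g - S lv (D l) 0) := by
    have h1 := h.hB g
    have h2 := comb2 lv (Nat.zero_le g) (-1) 1 1 (D l) NZ fun t _ _ => by
      unfold D NZ; split_ifs <;> omega
    have h3 := S_zero lv NZ
    have : (0 : ℤ) ≤ g := by positivity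
    push_cast at *
    linarith
  obtain ⟨p, -, hpy, hP, hmax⟩ :=
    lastP (fun y => (g : ℤ) - y ≤ 10 * (S lv (D l) g - S lv (D l) y)) h0 (Nat.zero_le y0)
  have hne : p ≠ y0 := by
    rintro rfl
    omega
  have h1 := hmax (p + 1) (by omega) (by omega)
  rw [S_succ] at h1
  have h2 := D01 l (lv p)
  have h3 := S_01 lv hpy (D l) (D01 l)
  have hx : p + (g - p) / 20 + 1 ≤ y0 := by omega
  have h4 := hmax (p + (g - p) / 20 + 1) (by omega) hx
  have h5 := h.hH l p (p + (g - p) / 20 + 1) g (by omega) (by omega) hg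
  have h6 := S_01 lv (show p ≤ p + (g - p) / 20 + 1 by omega) (U l) (U01 l)
  refine ⟨p, hpy, hP, by omega, ?_⟩
  unfold HW at h5
  omega

theorem rich {C : ℕ} {lv : ℕ → ℕ} {τ : ℕ} (hC : 1 ≤ C) (h : Good C lv τ) {m y b : ℕ}
    (hb : b ≤ τ) (hm : lv b ≤ m) (hL : y + 1000 * C ≤ b) :
    (b : ℤ) - y < 100 * (S lv (D (m + 1)) b - S lv (D (m + 1)) y) := by
  by_contra hcon
  obtain ⟨p, hp, h1, h2, h3⟩ := richStart hC h (m + 1) hb hL (by omega)
  have h4 := h.hN m p b (by omega) hm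
  have h5 := comb3 lv (show p ≤ b by omega) (-1) 1 2 1 (D (m + 1)) (U (m + 1)) (fA (m + 1))
    fun t _ _ => by unfold D U fA w; split_ifs <;> omega
  have h6 := comb3 lv (show p ≤ b by omega) 0 1 1 (-1) (D (m + 1)) (U (m + 1)) (fA m)
    fun t _ _ => by unfold D U fA w; split_ifs <;> omega
  omega

theorem negl {C : ℕ} {lv G : ℕ → ℕ} {τ τ' : ℕ} (hC : 1 ≤ C) (h : Good C lv τ) (hG : Good C G τ')
    {β g b m R : ℕ} (hag : ∀ t, t < β → G t = lv t) (hβg : β ≤ g) (hg : g ≤ τ) (hβb : β ≤ b)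
    (hb : b ≤ τ') (hm : G b ≤ m) (hR1 : b ≤ β + R) (hR2 : g ≤ β + R) (hR3 : 5 * C ≤ R) :
    10 ^ 12 * (S lv (U (m + 1)) g - S lv (U (m + 1)) β) ≤ 201 * R + 10 ^ 12 * C := by
  by_cases hc : 200 * R ≤ β
  · obtain ⟨y, rfl⟩ : ∃ y, β = y + 200 * R := ⟨β - 200 * R, by omega⟩
    have h1 := rich hC hG hb hm (show y + 1000 * C ≤ b by omega)
    have h2 := S_01 G hβb (D (m + 1)) (D01 _)
    have h3 := S_congr (D (m + 1)) hag (le_refl _)
    have h4 := S_congr (D (m + 1)) hag (show y ≤ y + 200 * R by omega)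
    have h5 := h.hH (m + 1) y (y + 200 * R) g (by omega) hβg hg
    unfold HW at h5
    omega
  · have h1 := h.hB g
    have h2 := comb2 lv hβg 0 (-1) 1 (U (m + 1)) NZ fun t _ _ => by
      unfold U NZ; split_ifs <;> omega
    have h3 := S_01 lv (Nat.zero_le β) NZ NZ01
    have h4 := S_zero lv NZ
    omega

theorem dich {C : ℕ} {lv : ℕ → ℕ} {τ : ℕ} (hC : 1 ≤ C) (h : Good C lv τ) {j a g : ℕ}
    (hag : a ≤ g) (hg : g ≤ τ) (ha : lv a ≤ j) :
    S lv (fA j) a - 1000 * C ≤ S lv (fA j) g ∨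
      9 * ((g : ℤ) - a) ≤ 10 * (S lv (Lv (j + 2)) g - S lv (Lv (j + 2)) a) := by
  obtain ⟨p, hap, hpg, hP, hmax⟩ := lastP (fun t => lv t ≤ j) ha hag
  have hu := h.hN.undo hap j hP
  by_cases ht : g ≤ p + 1000 * C
  · left
    have := comb1 lv hpg 1 1 (fA j) fun t _ _ => by unfold fA w; split_ifs <;> omega
    omega
  by_contra hcon
  obtain ⟨t, rfl⟩ : ∃ t, g = p + t := ⟨g - p, by omega⟩
  have h1 := negl hC h h (β := p) (g := p + t) (b := p) (m := j) (R := t) (fun _ _ => rfl)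
    hpg hg le_rfl (by omega) hP (by omega) le_rfl (by omega)
  have h2 := comb3 lv hpg 0 1 (-1) 1 (fA j) (Lv (j + 1)) (U (j + 1)) fun t _ _ => by
    unfold fA w Lv U; split_ifs <;> omega
  have h3 := comb3 lv (show p + 1 ≤ p + t by omega) (-1) 1 1 1 (Lv (j + 1)) (Lv (j + 2))
    (U (j + 1)) fun t h1 h2 => by
      have := hmax t (by omega) (by omega)
      unfold Lv U; split_ifs <;> omega
  simp only [S_succ] at h3
  have e1 := Lv01 (j + 1) (lv p)
  have e2 := Lv01 (j + 2) (lv p)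
  have e3 := U01 (j + 1) (lv p)
  have h4 := comb2 lv hpg 0 1 (-1) (U j) (Lv (j + 2)) fun t _ _ => by
    unfold Lv U; split_ifs <;> omega
  have e4 := S_01 lv hpg (Lv (j + 1)) (Lv01 _)
  have e5 := S_01 lv hap (Lv (j + 2)) (Lv01 _)
  obtain ⟨y, hy1, hy2, hy3⟩ : ∃ y, a ≤ y ∧ y ≤ p ∧ (y = a ∧ p ≤ a + t ∨ y + t = p) := by
    by_cases hc : a + t ≤ p
    · exact ⟨p - t, by omega, by omega, Or.inr (by omega)⟩
    · exact ⟨a, le_rfl, hap, Or.inl ⟨rfl, by omega⟩⟩
  obtain ⟨y', hy4, hy5, hy6, hy7⟩ := lastP (fun t => lv t ≤ j) ha hy1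
  have h5 := h.hH j y p (p + t) hy2 hpg hg
  have h6 : S lv (D j) y - S lv (D j) y' ≤ 1 := by
    rcases Nat.eq_or_lt_of_le hy5 with rfl | hlt
    · omega
    · have := S_const lv (show y' + 1 ≤ y by omega) (D j) 0 fun t h1 h2 => by
        have := hy7 t (by omega) (by omega)
        unfold D; rw [if_neg (by omega)]
      rw [S_succ] at this
      have := D01 j (lv y')
      omega
  have h7 := negl hC h h (β := y') (g := p) (b := y') (m := j) (R := t + (p - y'))
    (fun _ _ => rfl) (by omega) (by omega) le_rfl (by omega) hy6 (by omega) (by omega) (by omega)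
  have h8 := h.hN.undo hy4 j hy6
  have h9 := h.hN j y' p (by omega) hP
  have h10 := comb4 lv (show y' ≤ p by omega) (-1) 1 1 1 2 (D j) (fA j) (fA (j + 1)) (U (j + 1))
    fun t _ _ => by unfold D fA w U; split_ifs <;> omega
  unfold HW at h5
  push_cast [Nat.cast_sub (show y' ≤ p by omega)] at *
  rcases h5 with h5 | h5
  · have hr : 100 * ((p : ℤ) - y') ≤ t := by omega
    omega
  · omega

end Pool.Agent.Lib.MP_3e1e08_co
end

-- part Pool.Agent.Lib.MP_3e1e08_co.Safe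
section

/-! Chord-arc estimate and separation from the end point of a ghost path. -/

namespace Pool.Agent.Lib.MP_3e1e08_co

theorem minLevel (lv : ℕ → ℕ) {a b : ℕ} (hab : a < b) :
    ∃ p, a ≤ p ∧ p < b ∧ ∀ t, a ≤ t → t < b → lv p ≤ lv t := by
  obtain ⟨p, hp, hmin⟩ := Finset.exists_min_image (Finset.Ico a b) lv
    ⟨a, Finset.mem_Ico.2 ⟨le_rfl, hab⟩⟩
  rw [Finset.mem_Ico] at hp
  exact ⟨p, hp.1, hp.2, fun t h1 h2 => hmin t (Finset.mem_Ico.2 ⟨h1, h2⟩)⟩

theorem chord {C : ℕ} {lv : ℕ → ℕ} {τ : ℕ} (hC : 1 ≤ C) (h : Good C lv τ) {β g : ℕ}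
    (hg : g ≤ τ) (hL : β + 1000 * C ≤ g) :
    ∃ d, (g : ℤ) - β ≤ 20 * (S lv (w d) g - S lv (w d) β) := by
  obtain ⟨b, hb1, hb2, hmin⟩ := minLevel lv (show β < g by omega)
  obtain ⟨m, hm⟩ : ∃ m, lv b = m := ⟨_, rfl⟩
  rw [hm] at hmin
  obtain ⟨n, rfl⟩ : ∃ n, g = β + n := ⟨g - β, by omega⟩
  have h1 := negl hC h h (β := β) (g := β + n) (b := b) (m := m) (R := n) (fun _ _ => rfl)
    (by omega) hg hb1 (by omega) hm.le (by omega) le_rfl (by omega)
  obtain ⟨p, hp1, hp2, hP, hmax⟩ := lastP (fun t => lv t ≤ m) (a := b) (b := β + n - 1)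
    hm.le (by omega)
  have hβ : β ≤ β + n := by omega
  have e1 := comb3 lv hβ 0 1 (-1) 1 (w (m + 1)) (Lv (m + 1)) (U (m + 1)) fun t h1 h2 => by
    have := hmin t h1 h2
    unfold w Lv U; split_ifs <;> omega
  by_cases hc : 6 * (n : ℤ) ≤ 100 * (S lv (Lv (m + 1)) (β + n) - S lv (Lv (m + 1)) β)
  · exact ⟨m + 1, by push_cast; omega⟩
  have e2 := h.hN m β p (by omega) hP
  have e3 := comb3 lv (show β ≤ p by omega) 0 1 (-1) 1 (fA (m + 1)) (Lv (m + 2)) (U (m + 1))
    fun t _ _ => by unfold fA w Lv U; split_ifs <;> omega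
  have e4 := comb3 lv (show β ≤ p by omega) 0 (-1) 1 1 (fA m) (Lv (m + 1)) (U (m + 1))
    fun t _ _ => by unfold fA w Lv U; split_ifs <;> omega
  have e5 := S_01 lv (show p ≤ β + n by omega) (Lv (m + 1)) (Lv01 _)
  have e6 := S_01 lv (show p ≤ β + n by omega) (U (m + 1)) (U01 _)
  have e7 := h.hH m β (p + 1) (β + n) (by omega) (by omega) hg
  unfold HW at e7
  rcases e7 with e7 | e7
  · have e8 := S_const lv (show p + 1 ≤ β + n by omega) (D m) 0 fun t h1 h2 => by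
      have := hmax t (by omega) (by omega)
      unfold D; rw [if_neg (by omega)]
    have e9 := comb4 lv hβ (-1) 1 1 2 2 (w (m + 2)) (Lv (m + 1)) (D m) (U (m + 1))
      fun t h1 h2 => by
        have := hmin t h1 h2
        unfold w Lv U D; split_ifs <;> omega
    exact ⟨m + 2, by push_cast at *; omega⟩
  · have e8 := comb2 lv (show p + 1 ≤ β + n by omega) 0 1 (-1) (U m) (Lv (m + 2))
      fun t _ _ => by unfold U Lv; split_ifs <;> omega
    have e9 := comb4 lv hβ (-1) 1 1 2 2 (w m) (Lv (m + 1)) (Lv (m + 2)) (U (m + 1))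
      fun t h1 h2 => by
        have := hmin t h1 h2
        unfold w Lv U; split_ifs <;> omega
    have e10 := S_succ lv (Lv (m + 2)) p
    have e11 := Lv01 (m + 2) (lv p)
    exact ⟨m, by push_cast at *; omega⟩

/-- the gap condition of a labelled cop at level `j` -/
def Gap (lv G : ℕ → ℕ) (β T j : ℕ) : Prop :=
  ∀ a, β ≤ a → lv a ≤ j → S G (D (j + 2)) T - S G (D (j + 2)) β ≤
    10 ^ 28 * (S lv (w (j + 1)) β + (S lv (fA j) a - S lv (fA j) β) - S G (w (j + 1)) T)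

theorem sepr {C : ℕ} {lv G : ℕ → ℕ} {τ τ' : ℕ} (hC : 1 ≤ C) (h : Good C lv τ)
    (hG : Good C G τ') {β g T i gs : ℕ} (hag : ∀ t, t < β → G t = lv t) (hβg : β ≤ g)
    (hg : g ≤ τ) (hT : T ≤ τ') (hR : β + 10 ^ 34 * C ≤ T) (hgs1 : β ≤ gs) (hgs2 : gs < T)
    (hgs3 : G gs ≤ i) (hgs4 : S G (w (i + 2)) T ≤ S G (w (i + 2)) gs)
    (hA : ∀ j, j ≤ i + 1 → Gap lv G β T j) :
    ∃ d, ((T : ℤ) - β) + ((g : ℤ) - β) ≤ 4 * 10 ^ 30 * |S lv (w d) g - S G (w d) T| := by
  obtain ⟨n, rfl⟩ : ∃ n, g = β + n := ⟨g - β, by omega⟩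
  obtain ⟨r, rfl⟩ : ∃ r, T = β + r := ⟨T - β, by omega⟩
  have hu : ∀ d, S G (w d) β = S lv (w d) β := fun d => S_congr _ hag le_rfl
  have hβr : β ≤ β + r := by omega
  by_cases c1 : 100 * n ≤ r + n
  · obtain ⟨d, hd⟩ := chord hC hG hT (show β + 1000 * C ≤ β + r by omega)
    have e1 := u_lip lv hβg d
    have e2 := hu d
    have e3 := neg_le_abs (S lv (w d) (β + n) - S G (w d) (β + r))
    exact ⟨d, by push_cast at *; omega⟩
  by_cases c2 : 100 * r ≤ r + n
  · obtain ⟨d, hd⟩ := chord hC h hg (show β + 1000 * C ≤ β + n by omega)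
    have e1 := u_lip G hβr d
    have e2 := hu d
    have e3 := le_abs_self (S lv (w d) (β + n) - S G (w d) (β + r))
    exact ⟨d, by push_cast at *; omega⟩
  obtain ⟨b, hb1, hb2, hmin⟩ := minLevel lv (show β < β + n by omega)
  obtain ⟨j, hj⟩ : ∃ j, lv b = j := ⟨_, rfl⟩
  rw [hj] at hmin
  obtain ⟨a, ha1, ha2, ha3, ha4⟩ := firstP (fun t => lv t ≤ j) hj.le hb1
  have hag' : ∀ t, t < β → lv t = G t := fun t ht => (hag t ht).symm
  have n1 := negl hC hG h (β := β) (g := β + r) (b := a) (m := j) (R := r + n) hag' hβr hT ha1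
    (by omega) ha3 (by omega) (by omega) (by omega)
  have n2 := negl hC h hG (β := β) (g := β + n) (b := gs) (m := i) (R := r + n) hag hβg hg hgs1
    (by omega) hgs3 (by omega) (by omega) (by omega)
  have e1 := comb2 G hβr (-1) 1 1 (D (j + 2)) (U (j + 1)) fun t _ _ => by
    unfold D U; split_ifs <;> omega
  have e2 := S_eq2 lv hβg (w (j + 1)) (fA j) fun t h1 h2 => by
    have := hmin t h1 h2
    unfold fA w; split_ifs <;> omega
  have hd := dich hC h (show a ≤ β + n by omega) hg ha3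
  have first : j ≤ i + 1 → S lv (fA j) a - 1000 * C ≤ S lv (fA j) (β + n) →
      ∃ d, (((β + r : ℕ) : ℤ) - β) + (((β + n : ℕ) : ℤ) - β) ≤
        4 * 10 ^ 30 * |S lv (w d) (β + n) - S G (w d) (β + r)| := by
    intro hji hd
    have e3 := hA j hji a ha1 ha3
    have e4 := le_abs_self (S lv (w (j + 1)) (β + n) - S G (w (j + 1)) (β + r))
    exact ⟨j + 1, by push_cast at *; omega⟩
  have bad : 10 ^ 12 * ((n : ℤ) - (S lv (Lv (i + 2)) (β + n) - S lv (Lv (i + 2)) β))
      ≤ 3 * (201 * (r + n) + 10 ^ 12 * C) →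
      ∃ d, (((β + r : ℕ) : ℤ) - β) + (((β + n : ℕ) : ℤ) - β) ≤
        4 * 10 ^ 30 * |S lv (w d) (β + n) - S G (w d) (β + r)| := by
    intro hbad
    have hlev : ∀ t, β ≤ t → t < β + r → i ≤ G t := by
      intro t h1 h2
      by_contra hlt
      obtain ⟨i', rfl⟩ : ∃ i', i = i' + 1 := ⟨i - 1, by omega⟩
      have n3 := negl hC h hG (β := β) (g := β + n) (b := t) (m := i') (R := r + n) hag hβg hg h1
        (by omega) (by omega) (by omega) (by omega) (by omega)
      have e3 := comb2 lv hβg 0 1 (-1) (U (i' + 1)) (Lv (i' + 1 + 2)) fun t _ _ => by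
        unfold U Lv; split_ifs <;> omega
      push_cast at *
      omega
    have n3 := negl hC hG hG (β := β) (g := β + r) (b := gs) (m := i) (R := r + n)
      (fun _ _ => rfl) hβr hT hgs1 (by omega) hgs3 (by omega) (by omega) (by omega)
    have e3 := comb2 lv hβg 1 1 (-2) (w (i + 2)) (Lv (i + 2)) fun t _ _ => by
      unfold w Lv; split_ifs <;> omega
    have e4 := comb2 lv hβg 1 (-1) (-1) (w (i + 1)) (Lv (i + 2)) fun t _ _ => by
      unfold w Lv; split_ifs <;> omega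
    have e5 := comb2 G hgs1 0 (-1) 1 (w (i + 2)) (fA (i + 1)) fun t h1 h2 => by
      have := hlev t h1 (by omega)
      unfold w fA w; split_ifs <;> omega
    have e6 := hG.hN i β gs hgs1 hgs3
    have e7 := comb3 G hgs1 0 (-1) 1 1 (fA i) (Lv (i + 1)) (U (i + 1)) fun t h1 h2 => by
      unfold fA w Lv U; split_ifs <;> omega
    have e8 := comb3 G hβr 0 1 (-1) 1 (w (i + 1)) (Lv (i + 1)) (U (i + 1)) fun t h1 h2 => by
      have := hlev t h1 h2
      unfold w Lv U; split_ifs <;> omega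
    have e9 := S_01 G hgs2.le (Lv (i + 1)) (Lv01 _)
    have e10 := S_01 G hgs2.le (U (i + 1)) (U01 _)
    have e11 := hu (i + 1)
    have e12 := hu (i + 2)
    by_cases c3 : (n : ℤ) ≤ 4 * (S G (Lv (i + 1)) (β + r) - S G (Lv (i + 1)) β)
    · have e13 := neg_le_abs (S lv (w (i + 1)) (β + n) - S G (w (i + 1)) (β + r))
      exact ⟨i + 1, by push_cast at *; omega⟩
    · have e13 := le_abs_self (S lv (w (i + 2)) (β + n) - S G (w (i + 2)) (β + r))
      exact ⟨i + 2, by push_cast at *; omega⟩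
  by_cases c3 : j ≤ i
  · rcases hd with hd | hd
    · exact first (by omega) hd
    · have e3 := hA (j + 1) (by omega) a ha1 (by omega)
      have e4 := S_eq2 lv ha1 (w (j + 1 + 1)) (fA (j + 1)) fun t h1 h2 => by
        have := ha4 t h1 h2
        unfold fA w; split_ifs <;> omega
      have e5 := comb2 lv (show a ≤ β + n by omega) 1 1 (-2) (w (j + 1 + 1)) (Lv (j + 2))
        fun t _ _ => by unfold w Lv; split_ifs <;> omega
      have e6 := comb2 G hβr 0 1 (-1) (D (j + 1 + 2)) (D (j + 2)) fun t _ _ => by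
        unfold D; split_ifs <;> omega
      have e7 := le_abs_self (S lv (w (j + 1 + 1)) (β + n) - S G (w (j + 1 + 1)) (β + r))
      exact ⟨j + 1 + 1, by push_cast at *; omega⟩
  by_cases c4 : j = i + 1
  · rcases hd with hd | hd
    · exact first (by omega) hd
    · apply bad
      subst c4
      have e3 := comb2 lv (show a ≤ β + n by omega) 0 1 (-1) (U (i + 1)) (Lv (i + 1 + 2))
        fun t _ _ => by unfold U Lv; split_ifs <;> omega
      have e4 := comb2 lv ha1 (-1) 1 1 (U (i + 1)) (Lv (i + 2)) fun t h1 h2 => by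
        have := ha4 t h1 h2
        unfold U Lv; split_ifs <;> omega
      have e5 := S_01 lv (show a ≤ β + n by omega) (Lv (i + 2)) (Lv01 _)
      have e6 := S_01 lv ha1 (U (i + 1)) (U01 _)
      push_cast at *
      omega
  · apply bad
    have e4 := comb2 lv hβg (-1) 1 1 (U (i + 1)) (Lv (i + 2)) fun t h1 h2 => by
      have := hmin t h1 h2
      unfold U Lv; split_ifs <;> omega
    have e6 := S_01 lv hβg (U (i + 1)) (U01 _)
    push_cast at *
    omega

end Pool.Agent.Lib.MP_3e1e08_co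
end

-- part Pool.Agent.Lib.MP_3e1e08_co.Plan
section

/-! Plans (non-increasing tails of level paths) and the choice of the rewinding point. -/

namespace Pool.Agent.Lib.MP_3e1e08_co

/-- from time `τ` on the levels do not increase, and `q j` is the first time at level `≤ j` -/
def Plan (lv : ℕ → ℕ) (τ : ℕ) (q : ℕ → ℕ) : Prop :=
  (∀ j, τ ≤ q j) ∧ ∀ j t, τ ≤ t → (lv t ≤ j ↔ q j ≤ t)

theorem Plan.low {lv q : ℕ → ℕ} {τ : ℕ} (h : Plan lv τ q) (j : ℕ) : lv (q j) ≤ j :=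
  (h.2 j _ (h.1 j)).2 le_rfl

theorem Plan.anti {lv q : ℕ → ℕ} {τ : ℕ} (h : Plan lv τ q) {i j : ℕ} (hij : i ≤ j) :
    q j ≤ q i :=
  (h.2 j _ (h.1 i)).1 ((h.low i).trans hij)

theorem Plan.high {lv q : ℕ → ℕ} {τ : ℕ} (h : Plan lv τ q) {j t : ℕ} (h1 : τ ≤ t)
    (h2 : t < q j) : j < lv t := by
  by_contra hc
  have := (h.2 j t h1).1 (by omega)
  omega

theorem Plan.after {lv q : ℕ → ℕ} {τ : ℕ} (h : Plan lv τ q) {j t : ℕ} (h2 : q j ≤ t) :
    lv t ≤ j := (h.2 j t ((h.1 j).trans h2)).2 h2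

theorem Plan.seg {lv q : ℕ → ℕ} {τ : ℕ} (h : Plan lv τ q) {j t : ℕ} (h1 : q (j + 1) ≤ t)
    (h2 : t < q j) : lv t = j + 1 := by
  have e1 := h.after h1
  have e2 := h.high ((h.1 _).trans h1) h2
  omega

theorem Plan.line {lv q : ℕ → ℕ} {τ : ℕ} (h : Plan lv τ q) {j a : ℕ} (h1 : q (j + 1) ≤ a)
    (h2 : a ≤ q j) : S lv (w (j + 2)) a = S lv (w (j + 2)) (q (j + 1)) ∧
      S lv (w (j + 1)) a = S lv (w (j + 1)) (q (j + 1)) + ((a : ℤ) - q (j + 1)) := by
  have e1 := S_const lv h1 (w (j + 2)) 0 fun t h3 h4 => by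
    rw [h.seg h3 (by omega)]; unfold w; split_ifs <;> omega
  have e2 := S_const lv h1 (w (j + 1)) 1 fun t h3 h4 => by
    rw [h.seg h3 (by omega)]; unfold w; rw [if_pos rfl]
  constructor <;> linarith

theorem Plan.alpha {lv q : ℕ → ℕ} {τ : ℕ} (h : Plan lv τ q) (j : ℕ) :
    (q j : ℤ) - q (j + 1) = S lv (w (j + 1)) (q j) + S lv (w (j + 3)) (q (j + 2)) := by
  have e1 := (h.line (j := j) (h.anti (Nat.le_succ j)) le_rfl).2
  have e2 := (h.line (j := j + 1) (h.anti (Nat.le_succ (j + 1))) le_rfl).1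
  have e3 := u_two lv (j + 1) (q (j + 1))
  simp only [add_assoc, Nat.reduceAdd] at *
  linarith

theorem Plan.adv {lv q : ℕ → ℕ} {τ : ℕ} (h : Plan lv τ q) {T : ℕ} (hT : τ ≤ T) :
    Plan lv T fun j => max (q j) T := by
  refine ⟨fun j => le_max_right _ _, fun j t ht => ?_⟩
  rw [h.2 j t (hT.trans ht)]
  simp only [max_le_iff]
  tauto

theorem build (lv : ℕ → ℕ) (x k : ℕ) (H : ℕ → ℤ) (h1 : ∀ j, k ≤ j → H j = S lv (w (j + 1)) x)
    (h2 : ∀ j, 0 ≤ H j + H (j + 2)) :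
    ∃ lv' Q, (∀ t, t < x → lv' t = lv t) ∧ Plan lv' x Q ∧ (∀ j, k ≤ j → Q j = x) ∧
      ∀ j, S lv' (w (j + 1)) (Q j) = H j := by
  classical
  set Q : ℕ → ℕ := fun j => x + ∑ l ∈ Finset.Ico j k, (H l + H (l + 2)).toNat with hQ
  have hQ1 : ∀ j, k ≤ j → Q j = x := fun j hj => by
    simp [hQ, Finset.Ico_eq_empty_of_le hj]
  have hQ2 : ∀ j, j < k → Q j = Q (j + 1) + (H j + H (j + 2)).toNat := fun j hj => by
    simp only [hQ]
    rw [Finset.sum_eq_sum_Ico_succ_bot hj]; ring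
  have hQ3 : Antitone Q := antitone_nat_of_succ_le fun j => by
    by_cases hj : j < k
    · rw [hQ2 j hj]; omega
    · rw [hQ1 j (by omega), hQ1 (j + 1) (by omega)]
  have hex : ∀ t, x ≤ t → ∃ j, Q j ≤ t := fun t ht => ⟨k, by rw [hQ1 k le_rfl]; exact ht⟩
  set lv' : ℕ → ℕ := fun t => if ht : x ≤ t then Nat.find (hex t ht) else lv t with hlv
  have hag : ∀ t, t < x → lv' t = lv t := fun t ht => by simp [hlv, not_le.2 ht]
  have hP : Plan lv' x Q := by
    refine ⟨fun j => by simp [hQ], fun j t ht => ?_⟩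
    simp only [hlv, dif_pos ht]
    constructor
    · intro h; exact (hQ3 h).trans (Nat.find_spec (hex t ht))
    · intro h; exact Nat.find_min' _ h
  refine ⟨lv', Q, hag, hP, hQ1, fun j => ?_⟩
  have key : ∀ j, S lv' (w (j + 1)) (Q j) = H j ∧ S lv' (w (j + 2)) (Q j) = H (j + 1) := by
    refine downInd k (fun j hj => ?_) (fun j hj ih => ?_)
    · rw [hQ1 j hj, h1 j hj, h1 (j + 1) (by omega)]
      exact ⟨S_congr _ hag le_rfl, S_congr _ hag le_rfl⟩
    · have e1 := hP.line (j := j) (hP.anti (Nat.le_succ j)) le_rfl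
      have e2 := u_two lv' (j + 1) (Q (j + 1))
      have e3 := hQ2 j hj
      have e4 := h2 j
      simp only [add_assoc, Nat.reduceAdd] at *
      constructor <;> omega
  exact (key j).1

/-- the window condition for all windows of length at least `W` -/
def Long (C : ℕ) (lv : ℕ → ℕ) (W : ℕ) : Prop :=
  ∀ i y x z, y ≤ x → x ≤ z → y + W ≤ z → HW C lv i y x z

theorem jp {C W now : ℕ} {lv q : ℕ → ℕ} (hP : Plan lv now q) (hL : Long C lv W) {l p x len : ℕ}
    (h1 : p ≤ x) (h2 : x ≤ now) (h3 : p + len = now) (h4 : W ≤ len) (h5 : 2 * C < len)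
    (h6 : 2 * len + 10 ^ 12 * C < 10 ^ 12 * (S lv (D l) x - S lv (D l) p)) :
    10 ^ 12 * (S lv (U l) (q (l + 1)) - S lv (U l) x) ≤ 2 * len + 10 ^ 12 * C ∧
      (q (l + 1) : ℤ) - now ≤ S lv (U l) (q (l + 1)) - S lv (U l) x := by
  have e0 := hP.1 (l + 1)
  have e1 := S_01 lv h2 (U l) (U01 _)
  have e2 : ∀ z, now ≤ z → z ≤ q (l + 1) → S lv (U l) z = S lv (U l) now + 1 * ((z : ℤ) - now) :=
    fun z hz1 hz2 => S_const lv hz1 (U l) 1 fun t h1 h2 => by
      have := hP.high (j := l + 1) h1 (by omega)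
      unfold U; rw [if_pos (by omega)]
  have e3 := e2 _ e0 le_rfl
  refine ⟨?_, by omega⟩
  by_cases hc : q (l + 1) ≤ now + len
  · have := hL l p x (q (l + 1)) h1 (by omega) (by omega)
    unfold HW at this
    omega
  · have := hL l p x (now + len) h1 (by omega) (by omega)
    have e4 := e2 (now + len) (by omega) (by omega)
    unfold HW at this
    push_cast at *
    omega

/-- lower bound for the progress in direction `k` -/
def wc (k l : ℕ) : ℤ := if l = k then 1 else if l + 1 = k ∨ l = k + 1 then 0 else -1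

theorem cone {C W now : ℕ} {lv q : ℕ → ℕ} (hC : 1 ≤ C) (hP : Plan lv now q) (hL : Long C lv W)
    {k y len : ℕ} (hy : y + len = now) (hW : W ≤ len) (hlen : 10 ^ 6 * C ≤ len)
    (hlev : ∀ t, y ≤ t → t < now → k ≤ lv t + 1)
    (hrich : (len : ℤ) ≤ 10 ^ 4 * (S lv (Lv k) now - S lv (Lv k) y)) :
    ∃ x1, y ≤ x1 ∧ x1 < now ∧ lv x1 = k ∧ len + 10 ^ 5 * x1 ≤ 10 ^ 5 * now ∧
      ∀ a, x1 ≤ a → a ≤ q (k + 1) →
        (a : ℤ) - x1 ≤ 10 ^ 6 * (S lv (w k) a - S lv (w k) x1) := by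
  obtain ⟨x, hx1, hx2, hx3, hx4⟩ := firstP
    (fun x => (S lv (Lv k) now - S lv (Lv k) y) / 2 ≤ S lv (Lv k) x - S lv (Lv k) y)
    (a := y) (b := now) (by omega) (by omega)
  have hx5 : S lv (Lv k) x - S lv (Lv k) y ≤ (S lv (Lv k) now - S lv (Lv k) y) / 2 := by
    rcases Nat.eq_or_lt_of_le hx1 with rfl | hlt
    · omega
    · obtain ⟨x, rfl⟩ : ∃ x', x = x' + 1 := ⟨x - 1, by omega⟩
      have e1 := hx4 x (by omega) (by omega)
      have e2 := S_succ lv (Lv k) x
      have e3 := Lv01 k (lv x)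
      omega
  have e1 := comb2 lv hx1 0 1 (-1) (D k) (Lv k) fun t _ _ => by
    unfold D Lv; split_ifs <;> omega
  obtain ⟨j1, j2⟩ := jp hP hL (l := k) hx1 hx2 hy hW (by omega) (by omega)
  have e0 := hP.1 (k + 1)
  obtain ⟨x1, hm1, hm2⟩ := Finset.exists_min_image (Finset.Icc x (q (k + 1)))
    (fun t => 10 ^ 6 * S lv (wc k) t - t) ⟨x, Finset.mem_Icc.2 ⟨le_rfl, by omega⟩⟩
  rw [Finset.mem_Icc] at hm1
  have hm3 : ∀ a, x ≤ a → a ≤ q (k + 1) →
      10 ^ 6 * S lv (wc k) x1 - x1 ≤ 10 ^ 6 * S lv (wc k) a - a :=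
    fun a h1 h2 => hm2 a (Finset.mem_Icc.2 ⟨h1, h2⟩)
  have e2 := comb3 lv (show x ≤ q (k + 1) by omega) 0 1 (-1) 1 (wc k) (Lv k) (U k)
    fun t h1 h2 => by
      have : k ≤ lv t + 1 := by
        by_cases hc : t < now
        · exact hlev t (by omega) hc
        · have := hP.high (j := k + 1) (t := t) (by omega) h2; omega
      unfold wc Lv U; split_ifs <;> omega
  have e3 := S_const lv e0 (Lv k) 0 fun t h1 h2 => by
    have := hP.high (j := k + 1) h1 h2
    unfold Lv; rw [if_neg (by omega)]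
  have e4 := hm3 x le_rfl (by omega)
  have e5 := comb2 lv hm1.2 0 (-1) 1 (wc k) (Lv k) fun t _ _ => by
    unfold wc Lv; split_ifs <;> omega
  have hlt : x1 < now := by
    by_contra hc
    have e6 := S_01 lv (show now ≤ x1 by omega) (Lv k) (Lv01 _)
    omega
  have e6 := S_01 lv hlt.le (Lv k) (Lv01 _)
  refine ⟨x1, by omega, hlt, ?_, by omega, fun a h1 h2 => ?_⟩
  · have e7 := hm3 (x1 + 1) (by omega) (by omega)
    rw [S_succ] at e7
    unfold wc at e7
    push_cast at e7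
    split_ifs at e7 <;> omega
  · have e7 := hm3 a (by omega) h2
    have e8 := comb2 lv h1 0 (-1) 1 (wc k) (w k) fun t _ _ => by
      unfold wc w; split_ifs <;> omega
    omega

theorem minLevel' (lv : ℕ → ℕ) {L b : ℕ} (h0 : 0 < L) (hb : L ≤ b) :
    ∃ p, b ≤ p + L ∧ p < b ∧ ∀ t, b ≤ t + L → t < b → lv p ≤ lv t := by
  obtain ⟨p, hp, hmin⟩ := Finset.exists_min_image (Finset.Ico (b - L) b) lv
    ⟨b - L, Finset.mem_Ico.2 ⟨le_rfl, by omega⟩⟩
  rw [Finset.mem_Ico] at hp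
  exact ⟨p, by omega, hp.2, fun t h1 h2 => hmin t (Finset.mem_Ico.2 ⟨by omega, h2⟩)⟩

theorem stable {C W now : ℕ} {lv : ℕ → ℕ} (hC : 1 ≤ C) (h : Good C lv now) (hW : C ≤ W)
    (hnow : 2 * 10 ^ 15 * W ≤ now) :
    ∃ L b, 10 ^ 6 * W ≤ L ∧ L ≤ 10 ^ 12 * W ∧ now ≤ b + L ∧ b < now ∧
      ∀ t, now ≤ t + 1000 * L → t < now → lv b ≤ lv t := by
  obtain ⟨b0, a0, c0, d0⟩ := minLevel' lv (L := 10 ^ 6 * W) (b := now) (by omega) (by omega)
  obtain ⟨b1, a1, c1, d1⟩ := minLevel' lv (L := 10 ^ 9 * W) (b := now) (by omega) (by omega)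
  obtain ⟨b2, a2, c2, d2⟩ := minLevel' lv (L := 10 ^ 12 * W) (b := now) (by omega) (by omega)
  obtain ⟨b3, a3, c3, d3⟩ := minLevel' lv (L := 10 ^ 15 * W) (b := now) (by omega) (by omega)
  by_cases h0 : lv b0 ≤ lv b1
  · exact ⟨_, b0, le_rfl, by omega, a0, c0, fun t h1 h2 => h0.trans (d1 t (by omega) h2)⟩
  by_cases h1 : lv b1 ≤ lv b2
  · exact ⟨_, b1, by omega, by omega, a1, c1, fun t h3 h2 => h1.trans (d2 t (by omega) h2)⟩
  by_cases h2 : lv b2 ≤ lv b3
  · exact ⟨_, b2, by omega, by omega, a2, c2, fun t h3 h4 => h2.trans (d3 t (by omega) h4)⟩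
  exfalso
  obtain ⟨y, hy⟩ : ∃ y, y + 2 * 10 ^ 15 * W = now := ⟨now - 2 * 10 ^ 15 * W, by omega⟩
  obtain ⟨x, hx⟩ : ∃ x, x + 10 ^ 6 * W = now := ⟨now - 10 ^ 6 * W, by omega⟩
  have hb : b3 < x := by
    by_contra hc
    have := d0 b3 (by omega) c3
    omega
  have e1 := rich hC h (y := y) c3.le (le_refl (lv b3)) (by omega)
  have e2 := h.hH (lv b3 + 1) y b3 now (by omega) c3.le le_rfl
  have e3 := S_01 lv hb.le (U (lv b3 + 1)) (U01 _)
  have e4 := S_const lv (show x ≤ now by omega) (U (lv b3 + 1)) 1 fun t h3 h4 => by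
    have := d0 t (by omega) h4
    unfold U; rw [if_pos (by omega)]
  unfold HW at e2
  omega

/-- a rewinding point -/
structure Apex (lv q : ℕ → ℕ) (now W k x len : ℕ) : Prop where
  hk : lv x = k
  hW : x + W ≤ now
  hlen : now ≤ x + len
  hup : len ≤ 10 ^ 14 * W
  hlow : 10 ^ 6 * W ≤ len
  hlev : ∀ t, x ≤ t → t < now → k ≤ lv t + 1
  hcone : ∀ a, x ≤ a → a ≤ q (k + 1) → (a : ℤ) - x ≤ 10 ^ 6 * (S lv (w k) a - S lv (w k) x)
  hpoor : ∃ y, y + 20 * len = x ∧ 100 * (S lv (Dlt k) x - S lv (Dlt k) y) ≤ 20 * len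

theorem apex {C W now : ℕ} {lv q : ℕ → ℕ} (hC : 1 ≤ C) (h : Good C lv now) (hP : Plan lv now q)
    (hL : Long C lv W) (hW : C ≤ W) (hnow : 2 * 10 ^ 15 * W ≤ now) :
    ∃ k x len, Apex lv q now W k x len := by
  obtain ⟨L, b, hL1, hL2, hb1, hb2, hmin⟩ := stable hC h hW hnow
  obtain ⟨m, hm⟩ : ∃ m, lv b = m := ⟨_, rfl⟩
  rw [hm] at hmin
  obtain ⟨y', hy'⟩ : ∃ y, y + 42 * L = now := ⟨now - 42 * L, by omega⟩
  by_cases hc : ((42 * L : ℕ) : ℤ) ≤ 10 ^ 4 * (S lv (Lv m) now - S lv (Lv m) y')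
  · obtain ⟨x, h1, h2, h3, h4, h5⟩ := cone hC hP hL (k := m) hy' (by omega) (by omega)
      (fun t h1 h2 => by have := hmin t (by omega) h2; omega) hc
    refine ⟨m, x, 42 * L, h3, by omega, by omega, by omega, by omega,
      fun t h6 h7 => by have := hmin t (by omega) h7; omega, h5, x - 20 * (42 * L), by omega, ?_⟩
    have := S_const lv (show x - 20 * (42 * L) ≤ x by omega) (Dlt m) 0 fun t h6 h7 => by
      have := hmin t (by omega) (by omega)
      unfold Dlt; rw [if_neg (by omega)]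
    omega
  · obtain ⟨y, hy⟩ : ∃ y, y + 2 * L = now := ⟨now - 2 * L, by omega⟩
    have e1 := rich hC h (y := y) hb2.le hm.le (by omega)
    have e2 := S_01 lv hb2.le (D (m + 1)) (D01 _)
    have e3 := comb3 lv (show y ≤ now by omega) 0 (-1) 1 1 (D (m + 1)) (Lv m) (Lv (m + 1))
      fun t h1 h2 => by
        have := hmin t (by omega) h2
        unfold D Lv; split_ifs <;> omega
    have e4 := S_01 lv (show y' ≤ y by omega) (Lv m) (Lv01 _)
    obtain ⟨x, h1, h2, h3, h4, h5⟩ := cone hC hP hL (k := m + 1) hy (by omega) (by omega)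
      (fun t h1 h2 => by have := hmin t (by omega) h2; omega) (by omega)
    refine ⟨m + 1, x, 2 * L, h3, by omega, by omega, by omega, by omega,
      fun t h6 h7 => by have := hmin t (by omega) h7; omega, h5, x - 20 * (2 * L), by omega, ?_⟩
    have e5 := S_eq2 lv (show x - 20 * (2 * L) ≤ x by omega) (Dlt (m + 1)) (Lv m)
      fun t h6 h7 => by
        have := hmin t (by omega) (by omega)
        unfold Dlt Lv; split_ifs <;> omega
    have e6 := S_01 lv (show y' ≤ x - 20 * (2 * L) by omega) (Lv m) (Lv01 _)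
    have e7 := S_01 lv h2.le (Lv m) (Lv01 _)
    omega

end Pool.Agent.Lib.MP_3e1e08_co
end

-- part Pool.Agent.Lib.MP_3e1e08_co.Cand
section

/-! The modified path obtained by rewinding to an apex. -/

namespace Pool.Agent.Lib.MP_3e1e08_co

theorem planN {lv Q : ℕ → ℕ} {x K : ℕ} {H : ℕ → ℤ} (hP : Plan lv x Q) (hK : ∀ j, K ≤ j → Q j = x)
    (hH : ∀ j, S lv (w (j + 1)) (Q j) = H j)
    (h2 : ∀ j, H (j + 1) + H (j + 3) ≤ 2 * (H j - H (j + 4))) {j a : ℕ} (ha1 : x ≤ a)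
    (ha2 : a ≤ Q j) : H (j + 1) - S lv (w (j + 2)) a ≤ 2 * (H j - S lv (w (j + 1)) a) := by
  have hal : ∀ j, 0 ≤ H j + H (j + 2) := fun j => by
    have e1 := hP.alpha j
    have e2 := hP.anti (Nat.le_succ j)
    rw [hH j, hH (j + 2)] at e1
    simp only [Nat.succ_eq_add_one] at e2
    omega
  have hl : ∀ j a, Q (j + 1) ≤ a → a ≤ Q j → S lv (w (j + 2)) a = H (j + 1) ∧
      S lv (w (j + 1)) a ≤ H j ∧ - H (j + 2) ≤ S lv (w (j + 1)) a := by
    intro j a h1 h3
    have e1 := hP.line h1 h3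
    have e2 := hP.line (j := j) (hP.anti (Nat.le_succ j)) le_rfl
    have e3 := hP.alpha j
    have e4 := hH j
    have e5 := hH (j + 1)
    have e6 := hH (j + 2)
    simp only [add_assoc, Nat.reduceAdd] at *
    omega
  have box : ∀ j, ∀ a, x ≤ a → a ≤ Q j → S lv (w (j + 1)) a ≤ H j ∧ S lv (w (j + 2)) a ≤ H (j + 1)
      ∧ S lv (w (j + 3)) a ≤ H (j + 2) ∧ S lv (w (j + 4)) a ≤ H (j + 3) := by
    refine downInd K (fun j hj a h1 h3 => ?_) (fun j _ ih a h1 h3 => ?_)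
    · have e1 := hH j
      have e2 := hH (j + 1)
      have e3 := hH (j + 2)
      have e4 := hH (j + 3)
      rw [hK _ (by omega)] at e1 e2 e3 e4 h3
      obtain rfl : a = x := by omega
      exact ⟨e1.le, e2.le, e3.le, e4.le⟩
    · by_cases hc : a ≤ Q (j + 1)
      · have e1 := ih a h1 hc
        have e2 := u_four lv (j + 1) a
        have e3 := h2 j
        have e4 := hal (j + 1)
        simp only [add_assoc, Nat.reduceAdd] at *
        omega
      · have e1 := hl j a (by omega) h3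
        have e2 := u_two lv (j + 1) a
        have e3 := u_two lv (j + 2) a
        have e4 := hal (j + 1)
        simp only [add_assoc, Nat.reduceAdd] at *
        omega
  by_cases hc : a ≤ Q (j + 1)
  · have e1 := box (j + 1) a ha1 hc
    have e2 := u_four lv (j + 1) a
    have e3 := u_two lv (j + 2) a
    have e4 := h2 j
    simp only [add_assoc, Nat.reduceAdd] at *
    omega
  · have e1 := hl j a (by omega) ha2
    omega

theorem Apex.lev {lv q : ℕ → ℕ} {now W k x len : ℕ} (hA : Apex lv q now W k x len)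
    (hP : Plan lv now q) {j t : ℕ} (h1 : x ≤ t) (h2 : t < q j) : k ≤ lv t + 1 ∨ j < lv t := by
  by_cases hc : t < now
  · exact Or.inl (hA.hlev t h1 hc)
  · exact Or.inr (hP.high (by omega) h2)

theorem Apex.oldA {lv q : ℕ → ℕ} {now W k x len : ℕ} (hA : Apex lv q now W k x len)
    (hP : Plan lv now q) {j β : ℕ} (hj : j < k) (h1 : x ≤ β) (h2 : β ≤ now) :
    S lv (fA j) (q j) - S lv (fA j) β = S lv (w (j + 1)) (q j) - S lv (w (j + 1)) β ∧
    S lv (fA (j + 1)) (q j) - S lv (fA (j + 1)) β = S lv (w (j + 2)) (q (j + 1))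
      - S lv (w (j + 2)) β + (S lv (Lv j) (q j) - S lv (Lv j) β) := by
  have e0 : β ≤ q j := h2.trans (hP.1 j)
  have e1 := S_eq2 lv e0 (fA j) (w (j + 1)) fun t h3 h4 => by
    have := hA.lev hP (h1.trans h3) h4
    unfold fA w; split_ifs <;> omega
  have e2 := comb3 lv e0 0 1 (-1) (-1) (fA (j + 1)) (w (j + 2)) (Lv j) fun t h3 h4 => by
    have := hA.lev hP (h1.trans h3) h4
    unfold fA w Lv; split_ifs <;> omega
  have e3 := comb3 lv e0 0 (-1) 1 1 (fA (j + 1)) (w (j + 2)) (Lv j) fun t h3 h4 => by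
    have := hA.lev hP (h1.trans h3) h4
    unfold fA w Lv; split_ifs <;> omega
  have e4 := (hP.line (j := j) (hP.anti (Nat.le_succ j)) le_rfl).1
  constructor <;> omega

theorem room {C W now : ℕ} {lv q : ℕ → ℕ} (hC : 1 ≤ C) (h : Good C lv now) (hP : Plan lv now q)
    (hL : Long C lv W) (hW : C ≤ W) {k x len : ℕ} (hA : Apex lv q now W k x len) {j : ℕ}
    (hj : j + 3 ≤ k) :
    S lv (w (j + 2)) (q (j + 1)) - S lv (w (j + 2)) x + 7 * len + 3 * ((q (j + 3) : ℤ) - now)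
      ≤ 2 * (S lv (w (j + 1)) (q j) - S lv (w (j + 1)) x) := by
  obtain ⟨y, hy1, hy2⟩ := hA.hpoor
  have e0 := hA.hW
  have e1 := hA.hlow
  have e2 := hA.hlen
  have e3 := comb2 lv (show y ≤ x by omega) 0 1 (-1) (Dlt k) (D (j + 2)) fun t _ _ => by
    unfold Dlt D; split_ifs <;> omega
  obtain ⟨p, hp, h1, h2, h3⟩ := richStart hC h (j + 2) (y0 := y) (g := x) (by omega) (by omega)
    (by omega)
  obtain ⟨j1, j2⟩ := jp hP hL (l := j + 2) (p := p) (x := x) (len := now - p) (by omega)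
    (by omega) (by omega) (by omega) (by omega) (by omega)
  have e4 := h.hN j p (q j) (by have := hP.1 j; omega) (hP.low j)
  obtain ⟨e5, e6⟩ := hA.oldA hP (j := j) (β := x) (by omega) le_rfl (by omega)
  have e7 := S_01 lv (show x ≤ q j by have := hP.1 j; omega) (Lv j) (Lv01 _)
  have e8 := comb3 lv (show p ≤ x by omega) (-1) (-1) 2 2 (fA j) (D (j + 2)) (U (j + 2))
    fun t _ _ => by unfold fA w D U; split_ifs <;> omega
  have e9 := comb3 lv (show p ≤ x by omega) 0 1 1 1 (fA (j + 1)) (D (j + 2)) (U (j + 2))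
    fun t _ _ => by unfold fA w D U; split_ifs <;> omega
  simp only [add_assoc, Nat.reduceAdd] at *
  omega

theorem gainLem {C W now : ℕ} {lv q : ℕ → ℕ} (hN : NInv lv) (hP : Plan lv now q)
    {k x len : ℕ} (hA : Apex lv q now W k x len) {τ : ℕ} (h1 : x ≤ τ) (h2 : τ ≤ q k)
    {gain : ℤ} (hg : gain = ((q k : ℤ) - x) - (S lv (w k) (q k) - S lv (w k) x)
      - (S lv (w (k + 1)) (q k) - S lv (w (k + 1)) x)
      - 2 * (S lv (w (k + 1)) τ - S lv (w (k + 1)) (q k))) :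
    0 ≤ gain ∧ ∀ i y x' z, x ≤ y → y ≤ x' → x' ≤ z → ¬ HW C lv i y x' z →
      ((z : ℤ) - y) + 10 ^ 12 * C < 10 ^ 12 * gain := by
  have hlev : ∀ t, x ≤ t → t < q k → k ≤ lv t + 1 := fun t h3 h4 => by
    have := hA.lev hP h3 h4; omega
  have hq : x ≤ q k := h1.trans h2
  have a1 := comb3 lv h2 0 1 (-1) 1 (w (k + 1)) (fA k) (Dlt k) fun t h3 h4 => by
    have := hlev t (h1.trans h3) h4
    unfold fA w Dlt; split_ifs <;> omega
  have a1' := comb3 lv h2 0 (-1) 1 (-1) (w (k + 1)) (fA k) (Dlt k) fun t h3 h4 => by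
    have := hlev t (h1.trans h3) h4
    unfold fA w Dlt; split_ifs <;> omega
  have a2 := hN.undo h2 k (hP.low k)
  have a3 := hN.undo hq (k + 1) ((hP.low k).trans (by omega))
  have a4 := hN.undo hq (k + 2) ((hP.low k).trans (by omega))
  have a5 := S_01 lv h1 (Dlt k) (Dlt01 _)
  have b1 : S lv (U k) (q k) - S lv (U k) x ≤ gain := by
    have e1 := comb5 lv hq 1 (-1) (-1) (-2) (-1) (-1) (w k) (w (k + 1)) (Dlt k)
      (fun l => fA (k + 1) l + fA (k + 2) l) (U k) fun t h3 h4 => by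
        have := hlev t h3 h4
        unfold fA w Dlt U; split_ifs <;> omega
    have e2 := comb3 lv hq 0 1 (-1) (-1) (fun l => fA (k + 1) l + fA (k + 2) l) (fA (k + 1))
      (fA (k + 2)) fun t _ _ => by omega
    omega
  have b0 := S_01 lv hq (U k) (U01 _)
  refine ⟨by omega, fun i y x' z h3 h4 h5 h6 => ?_⟩
  unfold HW at h6
  have hU : ∀ i a, k ≤ i + 1 → a ≤ x' → a ≤ q k →
      S lv (U i) z - S lv (U i) x' ≤ S lv (U i) (q k) - S lv (U i) a := by
    intro i a hi ha1 ha2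
    have e1 := S_01 lv ha1 (U i) (U01 _)
    by_cases hc : z ≤ q k
    · have e2 := S_01 lv hc (U i) (U01 _)
      omega
    · have e2 := S_const lv (show q k ≤ z by omega) (U i) 0 fun t h7 _ => by
        have := hP.after h7
        unfold U; rw [if_neg (by omega)]
      omega
  by_cases hi : k ≤ i
  · have e1 := hU i x (by omega) (by omega) hq
    have e2 := comb2 lv hq 0 1 (-1) (U k) (U i) fun t _ _ => by
      unfold U; split_ifs <;> omega
    omega
  obtain ⟨t, ht1, ht2, ht3⟩ : ∃ t, y ≤ t ∧ t < x' ∧ lv t ≤ i := by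
    by_contra hc
    push Not at hc
    have := S_const lv h4 (D i) 0 fun t h7 h8 => by
      have := hc t h7 h8
      unfold D; rw [if_neg (by omega)]
    omega
  obtain ⟨t', ht4, ht5, ht6⟩ : ∃ t, x' ≤ t ∧ t < z ∧ i + 2 ≤ lv t := by
    by_contra hc
    push Not at hc
    have := S_const lv h5 (U i) 0 fun t h7 h8 => by
      have := hc t h7 h8
      unfold U; rw [if_neg (by omega)]
    omega
  have ht7 : t < now := by
    by_contra hc
    have e1 := (hP.2 i t (by omega)).1 ht3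
    have e2 := hP.after (j := i) (t := t') (by omega)
    omega
  have ht8 := hA.hlev t (by omega) ht7
  obtain rfl : k = i + 1 := by omega
  by_cases hc : x' ≤ τ
  · have e1 := comb3 lv hq 1 (-1) (-1) (-2) (w (i + 1)) (w (i + 1 + 1)) (Dlt (i + 1))
      fun t h3 h4 => by
        have := hlev t h3 h4
        unfold w Dlt; split_ifs <;> omega
    have e2 := S_eq2 lv h4 (D i) (Dlt (i + 1)) fun t _ _ => by
      unfold D Dlt; split_ifs <;> omega
    have e3 := S_01 lv h3 (Dlt (i + 1)) (Dlt01 _)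
    have e4 := S_01 lv hc (Dlt (i + 1)) (Dlt01 _)
    have e5 := S_01 lv h4 (D i) (D01 _)
    omega
  · have e1 := hU i τ le_rfl (by omega) h2
    have e2 := comb2 lv h1 1 (-1) (-1) (w (i + 1)) (w (i + 1 + 1)) fun t _ _ => by
      unfold w; split_ifs <;> omega
    have e3 := hN.undo h2 (i + 1 + 1) ((hP.low _).trans (by omega))
    have e4 := comb5 lv h2 1 (-1) (-1) (-2) 1 (-1) (w (i + 1)) (w (i + 1 + 1)) (Dlt (i + 1))
      (fun l => fA (i + 1) l - fA (i + 1 + 1) l) (U i) fun t h3 h4 => by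
        have := hlev t (h1.trans h3) h4
        unfold fA w Dlt U; split_ifs <;> omega
    have e5 := comb3 lv h2 0 (-1) 1 (-1) (fun l => fA (i + 1) l - fA (i + 1 + 1) l) (fA (i + 1))
      (fA (i + 1 + 1)) fun t _ _ => by omega
    omega

end Pool.Agent.Lib.MP_3e1e08_co
end

-- part Pool.Agent.Lib.MP_3e1e08_co.Cand2
section

/-! Construction of the modified path and its invariants. -/

namespace Pool.Agent.Lib.MP_3e1e08_co

theorem newA {lv Q : ℕ → ℕ} {x : ℕ} (hP : Plan lv x Q) {j a : ℕ} (ha1 : x ≤ a) (ha2 : a ≤ Q j)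
    {b : ℕ} (hb : Q j ≤ b) :
    S lv (fA j) b - S lv (fA j) a = S lv (w (j + 1)) (Q j) - S lv (w (j + 1)) a ∧
    S lv (fA (j + 1)) b - S lv (fA (j + 1)) a
      = S lv (w (j + 2)) (Q (j + 1)) - S lv (w (j + 2)) a := by
  have e1 := S_eq2 lv ha2 (fA j) (w (j + 1)) fun t h3 h4 => by
    have := hP.high (ha1.trans h3) h4
    unfold fA; rw [if_pos (by omega)]
  have e2 := S_eq2 lv ha2 (fA (j + 1)) (w (j + 2)) fun t h3 h4 => by
    have := hP.high (ha1.trans h3) h4
    unfold fA w; split_ifs <;> omega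
  have e3 := S_const lv hb (fA j) 0 fun t h3 _ => by
    have := hP.after h3
    unfold fA; rw [if_neg (by omega)]
  have e4 := S_const lv hb (fA (j + 1)) 0 fun t h3 _ => by
    have := hP.after h3
    unfold fA; rw [if_neg (by omega)]
  have e5 := (hP.line (j := j) (hP.anti (Nat.le_succ j)) le_rfl).1
  constructor <;> omega

theorem arrival (lv : ℕ → ℕ) {β b j : ℕ} (h1 : β ≤ b) (h2 : lv b ≤ j) :
    ∃ a, β ≤ a ∧ a ≤ b ∧ lv a ≤ j ∧
      S lv (fA j) a - S lv (fA j) β = S lv (w (j + 1)) a - S lv (w (j + 1)) β := by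
  obtain ⟨a, ha1, ha2, ha3, ha4⟩ := firstP (fun t => lv t ≤ j) h2 h1
  refine ⟨a, ha1, ha2, ha3, S_eq2 lv ha1 _ _ fun t h3 h4 => ?_⟩
  have := ha4 t h3 h4
  unfold fA; rw [if_pos (by omega)]

theorem cand {C W now : ℕ} {lv q : ℕ → ℕ} (hC : 1 ≤ C) (h : Good C lv now) (hP : Plan lv now q)
    (hL : Long C lv W) (hW : C ≤ W) {k x len : ℕ} (hA : Apex lv q now W k x len) :
    ∃ (lv' Q : ℕ → ℕ) (gain : ℤ), (∀ t, t < x → lv' t = lv t) ∧ Plan lv' x Q ∧ Q (k + 1) = x ∧
      NInv lv' ∧ (∀ G β T j, β ≤ x → Gap lv G β T j → Gap lv' G β T j) ∧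
      (∀ G β T j, x ≤ β → β ≤ now → (∀ t, t < β → G t = lv t) → j ≤ k + 1 →
        Gap lv G β T j → Gap lv' G x T j) ∧
      (∀ t : ℕ, 10 ^ 28 * ((t : ℤ) - S lv' (w 0) t) ≤
        10 ^ 28 * ((q 0 : ℤ) - S lv (w 0) (q 0) - gain + 2 * k + 34) + 32 * ((now : ℤ) - x)) ∧
      0 ≤ gain ∧ ∀ i y x' z, x ≤ y → y ≤ x' → x' ≤ z → ¬ HW C lv i y x' z →
        ((z : ℤ) - y) + 10 ^ 12 * C < 10 ^ 12 * gain := by
  have hk := hA.hk
  have hxn : x ≤ now := by have := hA.hW; omega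
  have hxq : ∀ j, x ≤ q j := fun j => hxn.trans (hP.1 j)
  obtain ⟨τ, hτ1, hτ2, hτ3, hτ4⟩ : ∃ τ, x ≤ τ ∧ τ ≤ q k ∧ lv τ ≤ k ∧ ∀ t, x ≤ t → t ≤ q k →
      lv t ≤ k → S lv (w (k + 1)) t ≤ S lv (w (k + 1)) τ := by
    obtain ⟨τ, h1, h2⟩ := Finset.exists_max_image
      ((Finset.Icc x (q k)).filter fun t => lv t ≤ k) (fun t => S lv (w (k + 1)) t)
      ⟨x, by simp [hxq k, hk]⟩
    simp only [Finset.mem_filter, Finset.mem_Icc] at h1 h2
    exact ⟨τ, h1.1.1, h1.1.2, h1.2, fun t a b c => h2 t ⟨⟨a, b⟩, c⟩⟩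
  obtain ⟨F, hF1, hF2, hF3⟩ : ∃ F : ℕ, now ≤ x + 10 ^ 28 * (F / 8) ∧ F + 1 ≤ len ∧
      10 ^ 28 * F + 8 * x ≤ 8 * now + 8 * 10 ^ 28 := by
    have e1 := hA.hlen
    have e2 := hA.hlow
    exact ⟨8 * ((now - x) / 10 ^ 28 + 1), by omega, by omega, by omega⟩
  obtain ⟨φ, hφ0, hφ1, hφ2, hφ3, hφ4⟩ : ∃ φ : ℕ → ℕ, φ 0 = F ∧ (∀ d, 2 * φ (d + 1) ≤ φ d) ∧
      (∀ d, φ d ≤ 2 * φ (d + 1) + 1) ∧ (∀ d, φ d ≤ F) ∧ ∀ d, d ≤ 3 → F / 8 ≤ φ d := by
    refine ⟨fun d => F / 2 ^ d, by simp, fun d => ?_, fun d => ?_, fun d => Nat.div_le_self _ _,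
      fun d hd => ?_⟩
    · simp only [pow_succ, ← Nat.div_div_eq_div_mul]; omega
    · simp only [pow_succ, ← Nat.div_div_eq_div_mul]; omega
    · interval_cases d <;> simp <;> omega
  obtain ⟨H, hH1, hH2, hH3⟩ : ∃ H : ℕ → ℤ, (∀ j, k + 1 ≤ j → H j = S lv (w (j + 1)) x) ∧
      H k = S lv (w (k + 1)) τ + F + 1 ∧
      ∀ j, j < k → H j = S lv (w (j + 1)) (q j) + φ (k - j) + 1 := by
    refine ⟨fun j => if k < j then S lv (w (j + 1)) x else if j = k then
      S lv (w (k + 1)) τ + F + 1 else S lv (w (j + 1)) (q j) + φ (k - j) + 1,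
      fun j hj => ?_, ?_, fun j hj => ?_⟩
    · simp only [if_pos (show k < j by omega)]
    · simp
    · simp only [if_neg (show ¬ k < j by omega), if_neg (show ¬ j = k by omega)]
  have hδ0 := hτ4 (q k) (hxq k) le_rfl (hP.low k)
  have hδ1 := hτ4 x le_rfl (hxq k) hk.le
  have hge : ∀ j, j ≤ k → S lv (w (j + 1)) (q j) ≤ H j := fun j hj => by
    rcases Nat.eq_or_lt_of_le hj with rfl | hlt
    · omega
    · have := hH3 j hlt; omega
  -- comparison of the old and the new contribution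
  have hcmp : ∀ j, j < k → S lv (fA j) (q j) - S lv (fA j) x ≤ H j - S lv (w (j + 1)) x ∧
      2 * (S lv (fA j) (q j) - S lv (fA j) x) - (S lv (fA (j + 1)) (q j) - S lv (fA (j + 1)) x)
        ≤ 2 * (H j - S lv (w (j + 1)) x) - (H (j + 1) - S lv (w (j + 2)) x) := by
    intro j hj
    obtain ⟨e1, e2⟩ := hA.oldA hP hj le_rfl hxn
    have e3 := hH3 j hj
    have e4 := hφ2 (k - (j + 1))
    rw [show k - (j + 1) + 1 = k - j by omega] at e4
    refine ⟨by omega, ?_⟩
    by_cases hc : j + 1 < k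
    · have e5 := hH3 (j + 1) hc
      have e6 := S_01 lv (hxq j) (Lv j) (Lv01 _)
      simp only [add_assoc, Nat.reduceAdd] at *
      omega
    · obtain rfl : k = j + 1 := by omega
      have e5 := comb3 lv hτ2 0 1 (-1) 1 (w (j + 1 + 1)) (fA (j + 1)) (Lv j) fun t h3 h4 => by
        have := hA.lev hP (hτ1.trans h3) h4
        unfold fA w Lv; split_ifs <;> omega
      have e6 := h.hN.undo hτ2 (j + 1) (hP.low _)
      have e7 := S_01 lv hτ1 (Lv j) (Lv01 _)
      have e8 := S_01 lv (hP.anti (Nat.le_succ j)) (Lv j) (Lv01 _)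
      simp only [add_assoc, Nat.reduceAdd, Nat.sub_self, Nat.succ_eq_add_one] at *
      omega
  have hnn : ∀ j, 0 ≤ H j + H (j + 2) := by
    intro j
    have e0 := u_two lv (j + 1) x
    by_cases c1 : k + 1 ≤ j
    · have e1 := hH1 j c1
      have e2 := hH1 (j + 2) (by omega)
      simp only [add_assoc, Nat.reduceAdd] at *
      omega
    by_cases c2 : j = k
    · subst c2
      have e2 := hH1 (j + 2) (by omega)
      simp only [add_assoc, Nat.reduceAdd] at *
      omega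
    by_cases c3 : j + 1 = k
    · have e1 := (hcmp j (by omega)).1
      have e2 := hH1 (j + 2) (by omega)
      have e3 := h.hN.undo (hxq j) j (hP.low j)
      simp only [add_assoc, Nat.reduceAdd] at *
      omega
    · have e1 := hge j (by omega)
      have e2 := hge (j + 2) (by omega)
      have e3 := hP.alpha j
      have e4 := hP.anti (Nat.le_succ j)
      simp only [add_assoc, Nat.reduceAdd, Nat.succ_eq_add_one] at *
      omega
  have hup : ∀ j l, j ≤ l → j ≤ k → H l ≤ S lv (w (l + 1)) x + ((q j : ℤ) - x) + len := by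
    intro j l h1 h2
    have e0 := hxq j
    by_cases c1 : k + 1 ≤ l
    · have := hH1 l c1; omega
    by_cases c2 : l = k
    · subst c2
      have e1 := u_lip lv hτ1 (l + 1)
      have e2 := hP.anti h1
      omega
    · have e1 := hH3 l (by omega)
      have e2 := u_lip lv (hxq l) (l + 1)
      have e3 := hP.anti h1
      have e4 := hφ3 (k - l)
      omega
  have hP2 : ∀ j, H (j + 1) + H (j + 3) ≤ 2 * (H j - H (j + 4)) := by
    intro j
    have e0 := u_two lv (j + 2) x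
    have e1 := u_four lv (j + 1) x
    by_cases c1 : k ≤ j
    · have e2 := hH1 (j + 1) (by omega)
      have e3 := hH1 (j + 3) (by omega)
      have e4 := hH1 (j + 4) (by omega)
      have e5 := hnn j
      have e6 := hH1 (j + 2) (by omega)
      have e7 := u_two lv (j + 1) x
      simp only [add_assoc, Nat.reduceAdd] at *
      omega
    by_cases c2 : k ≤ j + 2
    · have e2 := (hcmp j (by omega)).2
      have e3 := hH1 (j + 3) (by omega)
      have e4 := hH1 (j + 4) (by omega)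
      have e5 := h.hN j x (q j) (hxq j) (hP.low j)
      simp only [add_assoc, Nat.reduceAdd] at *
      omega
    · have e2 := room hC h hP hL hW hA (j := j) (by omega)
      have e3 := hup (j + 3) (j + 3) le_rfl (by omega)
      have e4 := hup (j + 3) (j + 4) (by omega) (by omega)
      have e5 := hge j (by omega)
      have e6 := hH3 (j + 1) (by omega)
      have e7 := hφ3 (k - (j + 1))
      have e8 := hA.hlen
      simp only [add_assoc, Nat.reduceAdd] at *
      omega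
  obtain ⟨lv', Q, hag, hP', hQ, hQH⟩ := build lv x (k + 1) H hH1 hnn
  have hux : ∀ f, S lv' f x = S lv f x := fun f => S_congr f hag le_rfl
  have hnew : ∀ j b, x ≤ b → lv' b ≤ j →
      S lv' (fA j) b - S lv' (fA j) x = H j - S lv (w (j + 1)) x ∧
      S lv' (fA (j + 1)) b - S lv' (fA (j + 1)) x = H (j + 1) - S lv (w (j + 2)) x := by
    intro j b h1 h2
    have e1 := newA hP' le_rfl (hP'.1 j) ((hP'.2 j b h1).1 h2)
    rw [hQH j, hQH (j + 1), hux (w (j + 1)), hux (w (j + 2))] at e1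
    exact e1
  have hdom : ∀ j b, x ≤ b → lv' b ≤ j → ∃ b0, x ≤ b0 ∧ lv b0 ≤ j ∧
      S lv (fA j) b0 - S lv (fA j) x ≤ S lv' (fA j) b - S lv' (fA j) x ∧
      2 * (S lv (fA j) b0 - S lv (fA j) x) - (S lv (fA (j + 1)) b0 - S lv (fA (j + 1)) x) ≤
        2 * (S lv' (fA j) b - S lv' (fA j) x)
          - (S lv' (fA (j + 1)) b - S lv' (fA (j + 1)) x) := by
    intro j b h1 h2
    obtain ⟨e1, e2⟩ := hnew j b h1 h2
    by_cases c : j < k
    · obtain ⟨e3, e4⟩ := hcmp j c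
      exact ⟨q j, hxq j, hP.low j, by omega, by omega⟩
    · have e3 := hH1 (j + 1) (by omega)
      have e4 := hH1 (j + 2) (by omega)
      have e5 := hnn j
      have e6 := u_two lv (j + 1) x
      simp only [add_assoc, Nat.reduceAdd] at *
      exact ⟨x, le_rfl, by omega, by omega, by omega⟩
  obtain ⟨g0, g1⟩ := gainLem (C := C) h.hN hP hA hτ1 hτ2 rfl
  refine ⟨lv', Q, _, hag, hP', hQ _ le_rfl, ?_, ?_, ?_, ?_, g0, g1⟩
  · intro j a b hab hb
    by_cases c1 : b < x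
    · rw [S_congr _ hag c1.le, S_congr _ hag c1.le, S_congr _ hag (hab.trans c1.le),
        S_congr _ hag (hab.trans c1.le)]
      exact h.hN j a b hab (by rw [← hag b c1]; exact hb)
    by_cases c2 : a ≤ x
    · obtain ⟨b0, e1, e2, -, e3⟩ := hdom j b (by omega) hb
      have e4 := h.hN j a b0 (by omega) e2
      have e5 := S_congr (fA j) hag c2
      have e6 := S_congr (fA (j + 1)) hag c2
      have e7 := hux (fA j)
      have e8 := hux (fA (j + 1))
      omega
    have hQb := (hP'.2 j b (by omega)).1 hb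
    by_cases c3 : a ≤ Q j
    · have e1 := newA hP' (a := a) (by omega) c3 hQb
      have e2 := planN hP' hQ hQH hP2 (j := j) (a := a) (by omega) c3
      rw [hQH j, hQH (j + 1)] at e1
      omega
    · have e1 := newA hP' (hP'.1 j) le_rfl hQb
      have e2 := newA hP' (hP'.1 j) le_rfl (show Q j ≤ a by omega)
      omega
  · intro G β T j hβ hG a ha1 ha2
    have e0 := S_congr (w (j + 1)) hag hβ
    have e1 := S_congr (fA j) hag hβ
    by_cases c1 : a < x
    · have e2 := hG a ha1 (by rw [← hag a c1]; exact ha2)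
      have e3 := S_congr (fA j) hag c1.le
      omega
    · obtain ⟨b0, e2, e3, e4, -⟩ := hdom j a (by omega) ha2
      have e5 := hG b0 (by omega) e3
      have e6 := hux (fA j)
      omega
  · intro G β T j hβ1 hβ2 hGa hj hG a ha1 ha2
    obtain ⟨e1, -⟩ := hnew j a ha1 ha2
    have e2 := hux (w (j + 1))
    have e3 := S_congr (D (j + 2)) hGa le_rfl
    have e4 := S_congr (D (j + 2)) hGa hβ1
    have e5 := S_01 lv hβ1 (D (j + 2)) (D01 _)
    by_cases c1 : j < k
    · have e6 := hG (q j) (hβ2.trans (hP.1 j)) (hP.low j)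
      have e7 := (hA.oldA hP c1 hβ1 hβ2).1
      have e8 := hH3 j c1
      by_cases c2 : j + 3 < k
      · have e9 := S_const lv hβ1 (D (j + 2)) 0 fun t h3 h4 => by
          have := hA.hlev t h3 (by omega)
          unfold D; rw [if_neg (by omega)]
        omega
      · have e9 := hφ4 (k - j) (by omega)
        omega
    by_cases c2 : j = k
    · subst c2
      obtain ⟨a0, f1, f2, f3, f4⟩ := arrival lv (hβ2.trans (hP.1 j)) (hP.low j)
      have e6 := hG a0 f1 f3
      have e7 := hτ4 a0 (by omega) f2 f3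
      omega
    · obtain rfl : j = k + 1 := by omega
      obtain ⟨a0, f1, f2, f3, f4⟩ := arrival lv (hβ2.trans (hP.1 (k + 1))) (hP.low (k + 1))
      have e6 := hG a0 f1 f3
      have e7 := hA.hcone a0 (by omega) f2
      have e8 := hH1 (k + 1) le_rfl
      have e9 := u_two lv k a0
      have e10 := u_two lv k x
      simp only [add_assoc, Nat.reduceAdd] at *
      omega
  · have key : ∀ d j, j + d = k → ((Q j : ℤ) - q j) + (H (j + 1) - S lv (w (j + 2)) (q (j + 1)))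
        + (H j - S lv (w (j + 1)) (q j)) ≤ - (((q k : ℤ) - x) - (S lv (w k) (q k) - S lv (w k) x)
          - (S lv (w (k + 1)) (q k) - S lv (w (k + 1)) x)
          - 2 * (S lv (w (k + 1)) τ - S lv (w (k + 1)) (q k))) + 2 * (2 * F - φ d) + 2 * (d + 1) := by
      intro d
      induction d with
      | zero =>
        intro j hj
        obtain rfl : j = k := by omega
        have e1 := hP'.alpha j
        rw [hQH j, hQH (j + 2), hQ (j + 1) le_rfl] at e1
        have e2 := hH1 (j + 1) le_rfl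
        have e3 := hH1 (j + 2) (by omega)
        have e4 := (hP.line (j := j) (hP.anti (Nat.le_succ j)) le_rfl).1
        have e5 := u_two lv j x
        have e6 := u_two lv j (q j)
        have e7 := u_two lv (j + 1) x
        simp only [add_assoc, Nat.reduceAdd] at *
        omega
      | succ d ih =>
        intro j hj
        have e0 := ih (j + 1) (by omega)
        have e1 := hP'.alpha j
        rw [hQH j, hQH (j + 2)] at e1
        have e2 := hP.alpha j
        have e3 := hH3 j (by omega)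
        rw [show k - j = d + 1 by omega] at e3
        have e4 := hφ1 d
        simp only [add_assoc, Nat.reduceAdd] at *
        omega
    intro t
    have e1 := key k 0 (by omega)
    have e2 := hge 0 (by omega)
    have e3 := hQH 1
    have e4 := (hP'.line (j := 0) (hP'.anti (Nat.le_succ 0)) le_rfl).1
    have e5 := (hP.line (j := 0) (hP.anti (Nat.le_succ 0)) le_rfl).1
    have e6 := u_two lv' 0 (Q 0)
    have e7 := u_two lv 0 (q 0)
    have e8 : (t : ℤ) - S lv' (w 0) t ≤ Q 0 - S lv' (w 0) (Q 0) := by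
      by_cases c : t ≤ Q 0
      · have := u_lip lv' c 0
        omega
      · have := S_const lv' (show Q 0 ≤ t by omega) (w 0) 1 fun t h3 _ => by
          have := hP'.after h3
          unfold w; rw [if_pos (by omega)]
        omega
    simp only [Nat.reduceAdd, zero_add] at *
    omega

end Pool.Agent.Lib.MP_3e1e08_co
end
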