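import Mathlib

/-! One-dimensional Rugby on the tunnel `ℤ × [n]`. -/

namespace Pool.Agent.Lib.MP_3e1e08_co

/-- the vertices of the tunnel `ℤ × {1, …, n}` -/
def Vtx (n : ℕ) : Type := {p : ℤ × ℤ // 1 ≤ p.2 ∧ p.2 ≤ n}

/-- `ℓ∞` distance at most `s` -/
def Near {n : ℕ} (s : ℕ) (p q : Vtx n) : Prop := |p.1.1 - q.1.1| ≤ s ∧ |p.1.2 - q.1.2| ≤ s

/-- the list of the first `t` positions `r 0, …, r (t - 1)` of the robber -/
def hist {n : ℕ} (r : ℕ → Vtx n) (t : ℕ) : List (Vtx n) := (List.range t).map r

/-- `r` is a sequence of positions of a robber of speed `s` who starts at `(x, n)` -/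
def Play (s : ℕ) {n : ℕ} (x : ℤ) (r : ℕ → Vtx n) : Prop :=
  (r 0).1 = (x, (n : ℤ)) ∧ ∀ t, Near s (r t) (r (t + 1))

/-- The cops follow `σ`, which gives their positions after each history of robber positions.
While the robber is at `r t` the cops are at `σ (hist r t)` and then at `σ (hist r (t + 1))`.
The robber wins if no cop is ever on his vertex and he passes every column `k > 0`. -/
def RobberWins {n m : ℕ} (σ : List (Vtx n) → Fin m → Vtx n) (r : ℕ → Vtx n) : Prop :=
  (∀ t c, σ (hist r t) c ≠ r t ∧ σ (hist r (t + 1)) c ≠ r t) ∧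
    ∀ k : ℕ, 0 < k → ∃ t, (k : ℤ) < (r t).1.1

/-- the start `(x, n)` is at least `2 n` columns to the left of every cop -/
def Far {n m : ℕ} (σ : List (Vtx n) → Fin m → Vtx n) (x : ℤ) : Prop :=
  ∀ c, x + 2 * n ≤ (σ [] c).1.1

/-- against every robber of speed `s` starting at `(x, n)`, the strategy `σ` moves each cop to
an adjacent vertex or keeps it in place at every turn, and the robber does not win -/
def Beats (s : ℕ) {n m : ℕ} (σ : List (Vtx n) → Fin m → Vtx n) (x : ℤ) : Prop :=
  ∀ r, Play s x r →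
    (∀ t c, Near 1 (σ (hist r t) c) (σ (hist r (t + 1)) c)) ∧ ¬ RobberWins σ r

/-- least number of cops that win from some admissible start of the robber -/
noncomputable def fSome (s n : ℕ) : ℕ :=
  sInf {m | ∃ (σ : List (Vtx n) → Fin m → Vtx n) (x : ℤ), Far σ x ∧ Beats s σ x}

/-- least number of cops that win from every admissible start of the robber -/
noncomputable def fAll (s n : ℕ) : ℕ :=
  sInf {m | ∃ σ : List (Vtx n) → Fin m → Vtx n, ∀ x : ℤ, Far σ x → Beats s σ x}

end Pool.Agent.Lib.MP_3e1e08_co
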