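import Pool.Agent.Lib.MP_3e1e08_co.Cand2
import Pool.Agent.Lib.MP_3e1e08_co.Defs

-- part Pool.Agent.Lib.MP_3e1e08_co.State
section

/-! The extremal argument: a level path that stays away from all cops. -/

namespace Pool.Agent.Lib.MP_3e1e08_co

/-- cop curves: causal and `1`-Lipschitz -/
structure Cops {m : ℕ} (Pc : (ℕ → ℕ) → Fin m → ℕ → ℕ → ℤ) : Prop where
  causal : ∀ lv lv' c d a, (∀ t, t < a → lv' t = lv t) → Pc lv' c d a = Pc lv c d a
  lip : ∀ lv c d a, |Pc lv c d (a + 1) - Pc lv c d a| ≤ 1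

theorem Cops.lip' {m : ℕ} {Pc : (ℕ → ℕ) → Fin m → ℕ → ℕ → ℤ} (h : Cops Pc) (lv : ℕ → ℕ)
    (c : Fin m) (d : ℕ) {a b : ℕ} (hab : a ≤ b) :
    Pc lv c d b - Pc lv c d a ≤ (b : ℤ) - a ∧ Pc lv c d a - Pc lv c d b ≤ (b : ℤ) - a := by
  induction b, hab using Nat.le_induction with
  | base => simp
  | succ b hb ih =>
    have := abs_le.1 (h.lip lv c d b)
    push_cast
    omega

def Safe {m : ℕ} (Pc : (ℕ → ℕ) → Fin m → ℕ → ℕ → ℤ) (o : ℕ) (lv : ℕ → ℕ) (c : Fin m)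
    (a : ℕ) : Prop :=
  ∃ d, 3 * 10 ^ 35 * (o : ℤ) ≤ |Pc lv c d a - 10 ^ 31 * S lv (w d) a|

def CopInv {m : ℕ} (Pc : (ℕ → ℕ) → Fin m → ℕ → ℕ → ℤ) (o : ℕ) (lv : ℕ → ℕ) (now : ℕ)
    (c : Fin m) : Prop :=
  ∃ β T G i gs, β ≤ now ∧ β + 10 ^ 36 * o ≤ T ∧ (∀ t, t < β → G t = lv t) ∧ Good (2 * o) G T ∧
    ¬ Safe Pc o G c T ∧ β ≤ gs ∧ gs < T ∧ G gs ≤ i ∧ S G (w (i + 2)) T ≤ S G (w (i + 2)) gs ∧
    ∀ j, j ≤ i + 1 → Gap lv G β T j

theorem CopInv.safe {m : ℕ} {Pc : (ℕ → ℕ) → Fin m → ℕ → ℕ → ℤ} (hc : Cops Pc) {o : ℕ}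
    (ho : 1 ≤ o) {lv : ℕ → ℕ} {now : ℕ} {c : Fin m} (h : CopInv Pc o lv now c)
    (hg : Good (2 * o) lv now) : Safe Pc o lv c now := by
  obtain ⟨β, T, G, i, gs, h1, h2, h3, h4, h5, h6, h7, h8, h9, h10⟩ := h
  obtain ⟨d, hd⟩ := sepr (by omega) hg h4 h3 h1 le_rfl le_rfl (by omega) h6 h7 h8 h9 h10
  refine ⟨d, ?_⟩
  have e1 : |Pc G c d T - 10 ^ 31 * S G (w d) T| < 3 * 10 ^ 35 * (o : ℤ) := by
    by_contra hcon
    exact h5 ⟨d, by omega⟩
  have e2 := hc.lip' G c d (show β ≤ T by omega)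
  have e3 := hc.lip' lv c d h1
  have e4 := hc.causal lv G c d β h3
  rw [abs_lt] at e1
  rw [le_abs]
  rcases abs_cases (S lv (w d) now - S G (w d) T) with e5 | e5 <;> omega

structure St {m : ℕ} (Pc : (ℕ → ℕ) → Fin m → ℕ → ℕ → ℤ) (o R : ℕ) (lv : ℕ → ℕ) (now : ℕ)
    (q : ℕ → ℕ) (A : Finset (Fin m)) (V : ℤ) (Lm a0 : ℕ) : Prop where
  plan : Plan lv now q
  hN : NInv lv
  hH : ∀ i y x z, y ≤ x → x ≤ z → z ≤ now → HW (2 * o) lv i y x z
  hV : ∀ t : ℕ, (t : ℤ) - S lv (w 0) t ≤ V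
  hL : ∀ t, lv t ≤ Lm
  ha1 : a0 ≤ now
  ha2 : a0 ≤ R
  ha3 : ∀ t, t < a0 → lv t = 0
  hS : ∀ a, a < now → ∀ c, Safe Pc o lv c a
  hA : ∀ c ∈ A, CopInv Pc o lv now c

theorem St.nz {m : ℕ} {Pc : (ℕ → ℕ) → Fin m → ℕ → ℕ → ℤ} {o R : ℕ} {lv : ℕ → ℕ} {now : ℕ}
    {q : ℕ → ℕ} {A : Finset (Fin m)} {V : ℤ} {Lm a0 : ℕ} (h : St Pc o R lv now q A V Lm a0)
    (g : ℕ) : S lv NZ g ≤ V := by
  have e1 := S_01 lv (le_max_left g (q 0)) NZ NZ01
  have e2 := h.hN.undo (Nat.zero_le (max g (q 0))) 1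
    ((h.plan.after (le_max_right g (q 0))).trans (by omega))
  have e3 := comb3 lv (Nat.zero_le (max g (q 0))) 1 (-1) (-1) (-1) (w 0) NZ (fA 1) fun t _ _ => by
    unfold w NZ fA w; split_ifs <;> omega
  have e4 := h.hV (max g (q 0))
  have e5 := S_zero lv (w 0)
  have e6 := S_zero lv NZ
  omega

theorem St.base {m : ℕ} {Pc : (ℕ → ℕ) → Fin m → ℕ → ℕ → ℤ} {o R : ℕ} {lv : ℕ → ℕ} {now : ℕ}
    {q : ℕ → ℕ} {A : Finset (Fin m)} {V : ℤ} {Lm a0 : ℕ} (h : St Pc o R lv now q A V Lm a0)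
    (hV : 10 ^ 12 * V ≤ a0) (g : ℕ) : 10 ^ 12 * S lv NZ g ≤ g := by
  by_cases c : g ≤ a0
  · have e1 := S_const lv (Nat.zero_le g) NZ 0 fun t _ h2 => by
      rw [h.ha3 t (by omega)]; rfl
    have e2 := S_zero lv NZ
    omega
  · have := h.nz g
    omega

theorem step {m : ℕ} {Pc : (ℕ → ℕ) → Fin m → ℕ → ℕ → ℤ} (hc : Cops Pc) {o R : ℕ} (ho : 1 ≤ o)
    {lv : ℕ → ℕ} {now : ℕ} {q : ℕ → ℕ} {A : Finset (Fin m)} {V : ℤ} {Lm a0 : ℕ}
    (h : St Pc o R lv now q A V Lm a0) (hV : 10 ^ 12 * V ≤ a0) {W : ℕ}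
    (hL : Long (2 * o) lv W) (hW : 2 * o ≤ W) (hnow : 2 * 10 ^ 15 * W ≤ now) :
    ∃ (lv' : ℕ → ℕ) (x : ℕ) (Q : ℕ → ℕ) (V' gain : ℤ), x + W ≤ now ∧ now ≤ x + 10 ^ 14 * W ∧
      St Pc o R lv' x Q A V' (Lm + 1) (min a0 x) ∧
      10 ^ 28 * V' ≤ 10 ^ 28 * (V - gain + 2 * Lm + 34) + 32 * ((now : ℤ) - x) ∧ 0 ≤ gain ∧
      (∀ i y x' z, x ≤ y → y ≤ x' → x' ≤ z → ¬ HW (2 * o) lv i y x' z →
        ((z : ℤ) - y) + 10 ^ 12 * (2 * o : ℕ) < 10 ^ 12 * gain) ∧
      ∀ c, ¬ Safe Pc o lv c now → 10 ^ 36 * o ≤ W → CopInv Pc o lv' x c := by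
  have hg : Good (2 * o) lv now := ⟨h.hN, h.hH, h.base hV⟩
  obtain ⟨k, x, len, hA⟩ := apex (by omega) hg h.plan hL hW hnow
  obtain ⟨lv', Q, gain, c1, c2, c3, c4, c5, c6, c7, c8, c9⟩ :=
    cand (by omega) hg h.plan hL hW hA
  have e1 := hA.hW
  have e2 := hA.hlen
  have e3 := hA.hup
  have e4 := hA.hk
  have e5 := h.hL x
  have e6 := h.hV (q 0)
  have hx : lv' x ≤ k + 1 := by have := c2.low (k + 1); rwa [c3] at this
  have ahead : ∀ G T, (∀ t, t < x → G t = lv t) → x ≤ T → Gap lv' G x T (k + 1) →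
      S G (w (k + 2)) T ≤ S G (w (k + 2)) x := by
    intro G T h1 h2 h3
    have f1 := h3 x le_rfl hx
    have f2 := S_01 G h2 (D (k + 1 + 2)) (D01 _)
    have f3 := S_congr (w (k + 2)) h1 le_rfl
    have f4 := S_congr (w (k + 2)) c1 le_rfl
    simp only [add_assoc, Nat.reduceAdd] at *
    omega
  refine ⟨lv', x, Q, (10 ^ 28 * (V - gain + 2 * Lm + 34) + 32 * ((now : ℤ) - x)) / 10 ^ 28, gain,
    e1, by omega, ⟨c2, c4, ?_, ?_, ?_, by omega, by have := h.ha2; omega, ?_, ?_, ?_⟩, by omega,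
    c8, c9, ?_⟩
  · intro i y x' z h1 h2 h3
    have := h.hH i y x' z h1 h2 (by omega)
    unfold HW at this ⊢
    rw [S_congr _ c1 (show x' ≤ x by omega), S_congr _ c1 (show y ≤ x by omega),
      S_congr _ c1 (show x' ≤ x by omega), S_congr _ c1 h3]
    exact this
  · intro t
    have := c7 t
    omega
  · intro t
    by_cases ht : t < x
    · rw [c1 t ht]; have := h.hL t; omega
    · have := c2.after (j := k + 1) (t := t) (by omega)
      omega
  · intro t ht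
    rw [c1 t (by omega)]
    exact h.ha3 t (by omega)
  · intro a ha c
    obtain ⟨d, hd⟩ := h.hS a (by omega) c
    refine ⟨d, ?_⟩
    rw [hc.causal lv lv' c d a fun t ht => c1 t (by omega), S_congr _ c1 ha.le]
    exact hd
  · intro c hcA
    obtain ⟨β, T, G, i, gs, h1, h2, h3, h4, h5, h6, h7, h8, h9, h10⟩ := h.hA c hcA
    by_cases hβ : β ≤ x
    · exact ⟨β, T, G, i, gs, hβ, h2, fun t ht => by rw [h3 t ht, c1 t (by omega)], h4, h5, h6, h7,
        h8, h9, fun j hj => c5 G β T j hβ (h10 j hj)⟩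
    have hag : ∀ t, t < x → G t = lv' t := fun t ht => by rw [h3 t (by omega), c1 t ht]
    by_cases hki : k ≤ i
    · have hgap : ∀ j, j ≤ k + 1 → Gap lv' G x T j := fun j hj =>
        c6 G β T j (by omega) h1 h3 hj (h10 j (by omega))
      exact ⟨x, T, G, k, x, le_rfl, by omega, hag, h4, h5, le_rfl, by omega,
        by rw [h3 x (by omega)]; exact e4.le,
        ahead G T (fun t ht => h3 t (by omega)) (by omega) (hgap _ le_rfl), hgap⟩
    · exact ⟨x, T, G, i, gs, le_rfl, by omega, hag, h4, h5, by omega, h7, h8, h9,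
        fun j hj => c6 G β T j (by omega) h1 h3 (by omega) (h10 j hj)⟩
  · intro c h1 h2
    have hgap : ∀ j, j ≤ k + 1 → Gap lv' lv x now j := fun j hj =>
      c6 lv now now j (by omega) le_rfl (fun _ _ => rfl) hj fun a ha1 ha2 => by
        have := h.hN.undo ha1 j ha2
        omega
    exact ⟨x, now, lv, k, x, le_rfl, by omega, fun t ht => (c1 t ht).symm, hg, h1, le_rfl,
      by omega, e4.le, ahead lv now (fun _ _ => rfl) (by omega) (hgap _ le_rfl), hgap⟩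

theorem escape {m : ℕ} {Pc : (ℕ → ℕ) → Fin m → ℕ → ℕ → ℤ} (hc : Cops Pc) {o M : ℕ}
    (ho : 10 ^ 25 * (m + 1) ≤ o) (hM : M = o * (m + 1))
    (hinit : ∀ lv c, (10 ^ 31 + 1) * (2 * 10 ^ 52 * (M : ℤ)) + 3 * 10 ^ 35 * o ≤ Pc lv c 0 0) :
    ∃ lv : ℕ → ℕ, (∀ a c, Safe Pc o lv c a) ∧ ∀ a, - (2000 * o : ℤ) ≤ S lv (w 1) a ∧
      S lv (w 1) a ≤ 10 ^ 24 * M ∧ (a : ℤ) - 10 ^ 24 * M ≤ S lv (w 0) a := by
  classical
  have ho1 : 1 ≤ o := by omega
  have hoM : o ≤ M := by rw [hM]; exact Nat.le_mul_of_pos_right _ (by omega)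
  set R := 2 * 10 ^ 52 * M with hR
  let P : ℤ → Prop := fun φ => ∃ lv now q A V Lm a0, St Pc o R lv now q A V Lm a0 ∧
    φ = 10 ^ 28 * (10 ^ 24 * ((o * A.card : ℕ) : ℤ) - V - (o * Lm : ℕ)) - ((R : ℤ) - a0)
  have hcard : ∀ A : Finset (Fin m), o * A.card + o ≤ M := fun A => by
    have : A.card ≤ m := by simpa using A.card_le_univ
    rw [hM, mul_add, mul_one]
    exact Nat.add_le_add_right (Nat.mul_le_mul_left _ this) _
  have hz : ∀ f : ℕ → ℤ, ∀ a, S (fun _ => 0) f a = f 0 * a := fun f a => by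
    have := S_const (fun _ => 0) (Nat.zero_le a) f (f 0) fun _ _ _ => rfl
    rw [this, S_zero]; simp
  have hP0 : P 0 := by
    refine ⟨fun _ => 0, R, fun _ => R, ∅, 0, 0, R, ⟨⟨fun _ => le_rfl, fun j t ht => by simp [ht]⟩,
      ?_, ?_, ?_, fun _ => le_rfl, le_rfl, le_rfl, fun _ _ => rfl, ?_, by simp⟩, by simp⟩
    · intro j a b _ _
      simp [hz, fA]
    · intro i y x z h1 h2 _
      right
      simp only [hz, U]
      rw [if_neg (by omega)]
      omega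
    · intro t
      simp [hz, w]
    · intro a ha c
      refine ⟨0, ?_⟩
      have e1 := hc.lip' (fun _ => 0) c 0 (Nat.zero_le a)
      have e2 := hinit (fun _ => 0) c
      rw [hz, show w 0 0 = 1 by simp [w], le_abs]
      omega
  obtain ⟨φ, hφ, hmax⟩ := Int.exists_greatest_of_bdd (P := P) ⟨10 ^ 52 * M, by
    rintro z ⟨lv, now, q, A, V, Lm, a0, h, rfl⟩
    have e1 := h.hV 0
    have e2 := S_zero lv (w 0)
    have e3 := hcard A
    have e4 := h.ha2
    omega⟩ ⟨0, hP0⟩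
  have hφ0 := hmax 0 hP0
  obtain ⟨lv, now, q, A, V, Lm, a0, h, hφ⟩ := hφ
  have e1 := h.hV 0
  have e2 := S_zero lv (w 0)
  have e3 := hcard A
  have e4 := h.ha2
  have e5 := h.ha1
  have hV : V ≤ 10 ^ 24 * M - 10 ^ 24 * o := by omega
  have ha0 : 10 ^ 52 * M ≤ a0 := by omega
  have hLm : 2 * Lm + 35 ≤ o := by
    have e6 : o * Lm ≤ o * (10 ^ 24 * m) := by
      have : o * (10 ^ 24 * m) + 10 ^ 24 * o = 10 ^ 24 * M := by rw [hM]; ring
      omega
    have := Nat.le_of_mul_le_mul_left e6 (by omega)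
    omega
  have hmul : o * (Lm + 1) = o * Lm + o := by ring
  have hH : ∀ i y x z, y ≤ x → x ≤ z → HW (2 * o) lv i y x z := by
    by_contra hcon
    push Not at hcon
    obtain ⟨i0, y0, x0, z0, f1, f2, f3⟩ := hcon
    let B : ℕ → Prop := fun L => ∃ i y x, y ≤ x ∧ x ≤ y + L ∧ ¬ HW (2 * o) lv i y x (y + L)
    have hB : ∀ L, B L → L ≤ 10 ^ 36 * M - 1 ∧ 2 * o ≤ L := by
      rintro L ⟨i, y, x, g1, g2, g3⟩
      unfold HW at g3
      have g4 := comb2 lv g2 0 1 (-1) NZ (U i) fun t _ _ => by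
        unfold NZ U; split_ifs <;> omega
      have g5 := h.nz (y + L)
      have g6 := S_01 lv (Nat.zero_le x) NZ NZ01
      have g7 := S_zero lv NZ
      have g8 := S_01 lv g1 (D i) (D01 _)
      omega
    have hB0 : B (z0 - y0) := ⟨i0, y0, x0, f1, by omega, by
      rwa [show y0 + (z0 - y0) = z0 by omega]⟩
    obtain ⟨L, -, -, ⟨i, y, x, g1, g2, g3⟩, g4⟩ := lastP B hB0 (hB _ hB0).1
    have g5 := hB L ⟨i, y, x, g1, g2, g3⟩
    have hL : Long (2 * o) lv (L + 1) := by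
      intro i' y' x' z' k1 k2 k3
      by_contra k4
      have k5 : B (z' - y') := ⟨i', y', x', k1, by omega, by
        rwa [show y' + (z' - y') = z' by omega]⟩
      exact g4 _ (by omega) (hB _ k5).1 k5
    obtain ⟨lv', x', Q, V', gain, s1, s2, s3, s4, s5, s6, -⟩ :=
      step hc ho1 h (by omega) hL (by omega) (by omega)
    have g6 : now < y + L := by
      by_contra k
      exact g3 (h.hH i y x _ g1 g2 (by omega))
    have g7 := s6 i y x (y + L) (by omega) g1 g2 g3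
    have g8 := hmax _ ⟨lv', x', Q, A, V', Lm + 1, min a0 x', s3, rfl⟩
    rw [hmul] at g8
    omega
  have hS : ∀ a c, Safe Pc o lv c a := by
    by_contra hcon
    push Not at hcon
    obtain ⟨a1, c1, f1⟩ := hcon
    obtain ⟨T, -, -, ⟨c, f2⟩, f3⟩ := firstP (fun t => ∃ c, ¬ Safe Pc o lv c t) (a := 0)
      ⟨c1, f1⟩ (Nat.zero_le a1)
    have hT : now ≤ T := by
      by_contra k
      exact f2 (h.hS T (by omega) c)
    have h' : St Pc o R lv T (fun j => max (q j) T) A V Lm a0 :=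
      ⟨h.plan.adv hT, h.hN, fun i y x z k1 k2 _ => hH i y x z k1 k2, h.hV, h.hL, by omega, h.ha2,
        h.ha3, fun a ha c => by
          by_contra k
          exact f3 a (Nat.zero_le _) ha ⟨c, k⟩, fun c hcA => by
          obtain ⟨β, T', G, i, gs, h1, h2⟩ := h.hA c hcA
          exact ⟨β, T', G, i, gs, by omega, h2⟩⟩
    have hcA : c ∉ A := fun k =>
      f2 ((h'.hA c k).safe hc ho1 ⟨h'.hN, h'.hH, h'.base (by omega)⟩)
    obtain ⟨lv', x', Q, V', gain, s1, s2, s3, s4, s5, -, s7⟩ :=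
      step hc ho1 h' (by omega) (W := 10 ^ 36 * o) (fun i y x z k1 k2 _ => hH i y x z k1 k2)
        (by omega) (by omega)
    have s8 : St Pc o R lv' x' Q (insert c A) V' (Lm + 1) (min a0 x') :=
      ⟨s3.plan, s3.hN, s3.hH, s3.hV, s3.hL, s3.ha1, s3.ha2, s3.ha3, s3.hS, fun c' hc' => by
        rcases Finset.mem_insert.1 hc' with rfl | k
        · exact s7 _ f2 le_rfl
        · exact s3.hA c' k⟩
    have g8 := hmax _ ⟨lv', x', Q, insert c A, V', Lm + 1, min a0 x', s8, rfl⟩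
    rw [hmul, Finset.card_insert_of_notMem hcA, mul_add, mul_one] at g8
    omega
  refine ⟨lv, hS, fun a => ?_⟩
  have hg : Good (2 * o) lv a := ⟨h.hN, fun i y x z k1 k2 _ => hH i y x z k1 k2, h.base (by omega)⟩
  have f1 := dich (by omega) hg (j := 0) (Nat.zero_le a) le_rfl (h.ha3 0 (by omega)).le
  have f2 := S_eq2 lv (Nat.zero_le a) (fA 0) (w 1) fun t _ _ => by
    unfold fA w; split_ifs <;> omega
  have f3 := comb2 lv (Nat.zero_le a) 0 1 (-1) NZ (Lv (0 + 2)) fun t _ _ => by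
    unfold NZ Lv; split_ifs <;> omega
  have f4 := comb2 lv (Nat.zero_le a) 0 1 (-1) NZ (w 1) fun t _ _ => by
    unfold NZ w; split_ifs <;> omega
  have f5 := hg.hB a
  have f6 := h.nz a
  have f7 := h.hV a
  have f8 := S_zero lv NZ
  have f9 := S_zero lv (w 1)
  have f10 := u_lip lv (Nat.zero_le a) 1
  omega

end Pool.Agent.Lib.MP_3e1e08_co
end

-- part Pool.Agent.Lib.MP_3e1e08_co.Game
section

/-! Reduction of the game to the level-path theorem. -/

namespace Pool.Agent.Lib.MP_3e1e08_co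

def dir (d : ℕ) (X Y : ℤ) : ℤ :=
  if d % 4 = 0 then X else if d % 4 = 1 then Y else if d % 4 = 2 then -X else -Y

theorem u_dir (lv : ℕ → ℕ) (d a : ℕ) : S lv (w d) a = dir d (S lv (w 0) a) (S lv (w 1) a) := by
  induction a with
  | zero => simp [S_zero, dir]
  | succ a ih =>
    simp only [S_succ, ih]
    unfold dir w
    split_ifs <;> omega

theorem div_near {N s a b : ℤ} (hN : 0 < N) (h : a ≤ b + s * N) : a / N ≤ b / N + s := by
  have := Int.ediv_le_ediv hN h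
  rwa [Int.add_mul_ediv_right _ _ hN.ne'] at this

theorem close {N a X : ℤ} (hN : 0 < N) (h1 : X ≤ a / N + 1) (h2 : a / N ≤ X + 1) :
    N * X ≤ a + N ∧ a ≤ N * X + 2 * N := by
  have e1 := Int.ediv_mul_le a hN.ne'
  have e2 := Int.lt_ediv_add_one_mul_self a hN
  constructor <;> nlinarith

/-- the coarse robber play that follows a level path -/
def rob (n : ℕ) (hn : 1 ≤ n) (x : ℤ) (o : ℕ) (lv : ℕ → ℕ) (t : ℕ) : Vtx n :=
  ⟨(x + S lv (w 0) (10 ^ 35 * o * t) / (10 ^ 4 * o),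
    max 1 (min n (n - (S lv (w 1) (10 ^ 35 * o * t) + 5000 * o) / (10 ^ 4 * o)))),
    le_max_left _ _, max_le (by exact_mod_cast hn) (min_le_left _ _)⟩

theorem rob_play {n : ℕ} (hn : 1 ≤ n) (x : ℤ) {o : ℕ} (ho : 1 ≤ o) (lv : ℕ → ℕ) {s : ℕ}
    (hs : 10 ^ 31 ≤ s) : Play s x (rob n hn x o lv) := by
  have hN : (0 : ℤ) < 10 ^ 4 * o := by positivity
  constructor
  · have : (5000 * o : ℤ) / (10 ^ 4 * o) = 0 := Int.ediv_eq_zero_of_lt (by omega) (by omega)
    simp only [rob, mul_zero, S_zero, zero_add, this]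
    ext
    · simp
    · simp only; omega
  · intro t
    have hle : 10 ^ 35 * o * t ≤ 10 ^ 35 * o * (t + 1) := Nat.mul_le_mul_left _ (by omega)
    have hd : ((10 ^ 35 * o * (t + 1) : ℕ) : ℤ) - (10 ^ 35 * o * t : ℕ)
        = 10 ^ 31 * (10 ^ 4 * o) := by push_cast; ring
    have e1 := u_lip lv hle 0
    have e2 := u_lip lv hle 1
    rw [hd] at e1 e2
    have f1 := div_near (s := 10 ^ 31) (a := S lv (w 0) (10 ^ 35 * o * t))
      (b := S lv (w 0) (10 ^ 35 * o * (t + 1))) hN (by linarith [e1.2])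
    have f2 := div_near (s := 10 ^ 31) (b := S lv (w 0) (10 ^ 35 * o * t))
      (a := S lv (w 0) (10 ^ 35 * o * (t + 1))) hN (by linarith [e1.1])
    have f3 := div_near (s := 10 ^ 31) (a := S lv (w 1) (10 ^ 35 * o * t) + 5000 * o)
      (b := S lv (w 1) (10 ^ 35 * o * (t + 1)) + 5000 * o) hN (by linarith [e2.2])
    have f4 := div_near (s := 10 ^ 31) (b := S lv (w 1) (10 ^ 35 * o * t) + 5000 * o)
      (a := S lv (w 1) (10 ^ 35 * o * (t + 1)) + 5000 * o) hN (by linarith [e2.1])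
    unfold Near rob
    simp only [abs_le]
    generalize S lv (w 0) (10 ^ 35 * o * t) / (10 ^ 4 * o) = A at *
    generalize S lv (w 0) (10 ^ 35 * o * (t + 1)) / (10 ^ 4 * o) = B at *
    generalize (S lv (w 1) (10 ^ 35 * o * t) + 5000 * o) / (10 ^ 4 * o) = A' at *
    generalize (S lv (w 1) (10 ^ 35 * o * (t + 1)) + 5000 * o) / (10 ^ 4 * o) = B' at *
    omega

/-- interpolation of a sequence in blocks of length `B` -/
def interp (B : ℕ) (g : ℕ → ℤ) (a : ℕ) : ℤ :=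
  B * g 0 + ∑ b ∈ Finset.range a, (g (b / B + 1) - g (b / B))

theorem interp_mul {B : ℕ} (hB : 0 < B) (g : ℕ → ℤ) (t : ℕ) : interp B g (B * t) = B * g t := by
  induction t with
  | zero => simp [interp]
  | succ t ih =>
    unfold interp at ih ⊢
    rw [mul_add, mul_one, Finset.sum_range_add, ← add_assoc, ih]
    have : ∀ i ∈ Finset.range B, g ((B * t + i) / B + 1) - g ((B * t + i) / B)
        = g (t + 1) - g t := fun i hi => by
      rw [Nat.mul_add_div hB, Nat.div_eq_of_lt (Finset.mem_range.1 hi), add_zero]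
    rw [Finset.sum_congr rfl this]
    simp only [Finset.sum_const, Finset.card_range, nsmul_eq_mul]
    ring

theorem lower {s n m : ℕ} (hs : 10 ^ 31 ≤ s) (hn : 10 ^ 49 * (m + 1) ≤ n)
    (σ : List (Vtx n) → Fin m → Vtx n) (x : ℤ) (hF : Far σ x) : ¬ Beats s σ x := by
  intro hB
  have hn1 : 1 ≤ n := by omega
  obtain ⟨o, ho⟩ : ∃ o, o = 10 ^ 25 * (m + 1) := ⟨_, rfl⟩
  have ho1 : 1 ≤ o := by omega
  have hN : (0 : ℤ) < 10 ^ 4 * o := by positivity
  have hpl := fun lv => rob_play hn1 x ho1 lv hs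
  let cq : (ℕ → ℕ) → Fin m → ℕ → ℕ → ℤ := fun lv c d t =>
    dir d ((σ (hist (rob n hn1 x o lv) t) c).1.1 - x) (n - (σ (hist (rob n hn1 x o lv) t) c).1.2)
  let Pc : (ℕ → ℕ) → Fin m → ℕ → ℕ → ℤ := fun lv c d a => interp (10 ^ 35 * o) (cq lv c d) a
  have hc : Cops Pc := by
    constructor
    · intro lv lv' c d a h
      have key : ∀ t, (∀ j, j < t → 10 ^ 35 * o * j ≤ a) → cq lv' c d t = cq lv c d t := by
        intro t ht
        have : hist (rob n hn1 x o lv') t = hist (rob n hn1 x o lv) t := by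
          unfold hist
          refine List.map_congr_left fun j hj => ?_
          have hj' := ht j (List.mem_range.1 hj)
          apply Subtype.ext
          simp only [rob, S_congr _ h hj']
        simp only [cq, this]
      simp only [Pc, interp]
      rw [key 0 (by simp)]
      congr 1
      refine Finset.sum_congr rfl fun b hb => ?_
      have hb' := Finset.mem_range.1 hb
      have e : ∀ j, j ≤ b / (10 ^ 35 * o) → 10 ^ 35 * o * j ≤ a := fun j hj =>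
        ((Nat.mul_le_mul_left _ hj).trans (Nat.mul_div_le _ _)).trans hb'.le
      rw [key _ fun j hj => e j (by omega), key _ fun j hj => e j (by omega)]
    · intro lv c d a
      simp only [Pc, interp, Finset.sum_range_succ]
      have := (hB _ (hpl lv)).1 (a / (10 ^ 35 * o)) c
      unfold Near at this
      simp only [abs_le, cq, dir] at this ⊢
      split_ifs <;> omega
  have hnM : 10 ^ 49 * (o * (m + 1)) ≤ o * n := by
    have := Nat.mul_le_mul_left o hn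
    linarith
  obtain ⟨lv, h1, h2⟩ := escape hc ho.ge rfl fun lv c => by
    have e1 := hF c
    have e2 : Pc lv c 0 0 = (10 ^ 35 * o : ℕ) * ((σ [] c).1.1 - x) := by
      simp [Pc, interp, cq, dir, hist]
    have e3 : ((10 ^ 35 * o : ℕ) : ℤ) * (2 * n) ≤ (10 ^ 35 * o : ℕ) * ((σ [] c).1.1 - x) :=
      mul_le_mul_of_nonneg_left (by linarith) (by positivity)
    have e4 : ((10 ^ 35 * o : ℕ) : ℤ) * (2 * n) = 2 * 10 ^ 35 * (o * n : ℕ) := by
      push_cast; ring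
    have e5 : o ≤ o * (m + 1) := Nat.le_mul_of_pos_right _ (by omega)
    omega
  apply (hB _ (hpl lv)).2
  have hcap : ∀ t c, ¬ Near 1 (σ (hist (rob n hn1 x o lv) t) c) (rob n hn1 x o lv t) := by
    intro t c hnear
    obtain ⟨d, hd⟩ := h1 (10 ^ 35 * o * t) c
    simp only [Pc] at hd
    rw [interp_mul (by positivity), u_dir] at hd
    obtain ⟨e1, e2, -⟩ := h2 (10 ^ 35 * o * t)
    have e3 : 0 ≤ (S lv (w 1) (10 ^ 35 * o * t) + 5000 * o) / (10 ^ 4 * o) :=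
      Int.ediv_nonneg (by omega) hN.le
    have e4 : (S lv (w 1) (10 ^ 35 * o * t) + 5000 * o) / (10 ^ 4 * o) < n := by
      refine Int.ediv_lt_of_lt_mul hN ?_
      have : (n : ℤ) * (10 ^ 4 * o) = 10 ^ 4 * (o * n : ℕ) := by push_cast; ring
      have e5 : o ≤ o * (m + 1) := Nat.le_mul_of_pos_right _ (by omega)
      omega
    unfold Near at hnear
    simp only [abs_le] at hnear
    have e5 : (rob n hn1 x o lv t).1.1 = x + S lv (w 0) (10 ^ 35 * o * t) / (10 ^ 4 * o) := rfl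
    have e6 : (rob n hn1 x o lv t).1.2 =
      max (1 : ℤ) (min (n : ℤ) (n - (S lv (w 1) (10 ^ 35 * o * t) + 5000 * o) / (10 ^ 4 * o))) :=
      rfl
    rw [e5, e6] at hnear
    have f1 := close (a := S lv (w 0) (10 ^ 35 * o * t))
      (X := (σ (hist (rob n hn1 x o lv) t) c).1.1 - x) hN (by omega) (by omega)
    have f2 := close (a := S lv (w 1) (10 ^ 35 * o * t) + 5000 * o)
      (X := n - (σ (hist (rob n hn1 x o lv) t) c).1.2) hN (by omega) (by omega)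
    simp only [cq] at hd
    generalize (σ (hist (rob n hn1 x o lv) t) c).1.1 - x = X at *
    generalize (n : ℤ) - (σ (hist (rob n hn1 x o lv) t) c).1.2 = Y at *
    have g1 : ((10 ^ 35 * o : ℕ) : ℤ) * dir d X Y
        = 10 ^ 31 * dir d (10 ^ 4 * o * X) (10 ^ 4 * o * Y) := by
      unfold dir; split_ifs <;> (push_cast; ring)
    rw [g1, le_abs] at hd
    generalize 10 ^ 4 * (o : ℤ) * X = X' at *
    generalize 10 ^ 4 * (o : ℤ) * Y = Y' at *
    unfold dir at hd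
    split_ifs at hd <;> omega
  refine ⟨fun t c => ⟨fun h => hcap t c ?_, fun h => hcap t c ?_⟩, fun k _ => ?_⟩
  · rw [h]; simp [Near]
  · rw [← h]; exact (hB _ (hpl lv)).1 t c
  · obtain ⟨t, ht⟩ : ∃ t, t = (k - x).toNat + 1 + 10 ^ 24 * (o * (m + 1)) := ⟨_, rfl⟩
    refine ⟨t, ?_⟩
    obtain ⟨-, -, e1⟩ := h2 (10 ^ 35 * o * t)
    have e2 : (((k - x).toNat + 1 : ℕ) : ℤ) ≤ S lv (w 0) (10 ^ 35 * o * t) / (10 ^ 4 * o) := by
      refine Int.le_ediv_of_mul_le hN ?_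
      have e3 : 10 ^ 35 * o * t = 10 ^ 35 * (o * ((k - x).toNat + 1))
          + 10 ^ 59 * (o * (o * (m + 1))) := by rw [ht]; ring
      have e4 : o * (m + 1) ≤ o * (o * (m + 1)) := Nat.le_mul_of_pos_left _ ho1
      have e5 : (((k - x).toNat + 1 : ℕ) : ℤ) * (10 ^ 4 * o)
          = 10 ^ 4 * (o * ((k - x).toNat + 1) : ℕ) := by push_cast; ring
      omega
    have e5 : (rob n hn1 x o lv t).1.1 = x + S lv (w 0) (10 ^ 35 * o * t) / (10 ^ 4 * o) := rfl
    omega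

theorem lower0 {s n : ℕ} (hs : 1 ≤ s) (hn : 1 ≤ n) (σ : List (Vtx n) → Fin 0 → Vtx n) (x : ℤ) :
    ¬ Beats s σ x := by
  intro hB
  let r : ℕ → Vtx n := fun t => ⟨(x + t, n), by simpa using hn, le_rfl⟩
  refine (hB r ⟨by simp [r], fun t => ?_⟩).2 ⟨fun t c => c.elim0, fun k _ => ⟨(k - x).toNat + 1, ?_⟩⟩
  · simp only [Near, r, abs_le]
    omega
  · simp only [r]
    omega

theorem lower' {s n m : ℕ} (hs : 10 ^ 31 ≤ s) (hn : 1 ≤ n) (σ : List (Vtx n) → Fin m → Vtx n)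
    (x : ℤ) (hF : Far σ x) (hB : Beats s σ x) : n ≤ 10 ^ 50 * m := by
  rcases Nat.eq_zero_or_pos m with rfl | hm
  · exact absurd hB (lower0 (by omega) hn σ x)
  · by_contra hc
    exact lower hs (by omega) σ x hF hB

theorem upper {s n : ℕ} (hs : 1 ≤ s) (hn : 1 ≤ n) :
    ∃ σ : List (Vtx n) → Fin (s * n) → Vtx n, Far σ (-(2 * n)) ∧ ∀ x, Far σ x → Beats s σ x := by
  let pos : Fin (s * n) → Vtx n := fun c =>
    ⟨(((finProdFinEquiv.symm c).1 : ℕ), ((finProdFinEquiv.symm c).2 : ℕ) + 1), by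
      have := (finProdFinEquiv.symm c).2.2
      simp only
      omega⟩
  have hpos : ∀ v : Vtx n, 0 ≤ v.1.1 → v.1.1 < s → ∃ c, pos c = v := by
    rintro ⟨⟨a, b⟩, h1, h2⟩ h3 h4
    simp only at h1 h2 h3 h4
    refine ⟨finProdFinEquiv (⟨a.toNat, by omega⟩, ⟨(b - 1).toNat, by omega⟩), ?_⟩
    apply Subtype.ext
    simp only [pos, Equiv.symm_apply_apply]
    ext
    · simp only; omega
    · simp only; omega
  refine ⟨fun _ => pos, fun c => by simp only [pos]; omega, fun x hx r hr =>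
    ⟨fun t c => by simp [Near], fun hw => ?_⟩⟩
  have h0 : x < 0 := by
    have := hx (finProdFinEquiv (⟨0, hs⟩, ⟨0, hn⟩))
    simp only [pos, Equiv.symm_apply_apply] at this
    omega
  have hneg : ∀ t, (r t).1.1 < 0 := by
    intro t
    induction t with
    | zero => rw [hr.1]; exact h0
    | succ t ih =>
      by_contra hc
      have e1 := (abs_le.1 (hr.2 t).1).1
      obtain ⟨c, hc⟩ := hpos (r (t + 1)) (by omega) (by omega)
      exact (hw.1 (t + 1) c).1 hc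
  obtain ⟨t, ht⟩ := hw.2 1 one_pos
  have := hneg t
  omega

theorem linear {s n : ℕ} (hs : 10 ^ 31 ≤ s) (hn : 1 ≤ n) :
    n ≤ 10 ^ 50 * fSome s n ∧ n ≤ 10 ^ 50 * fAll s n := by
  obtain ⟨σ, h1, h2⟩ := upper (s := s) (by omega) hn
  constructor
  · obtain ⟨σ', x, h3, h4⟩ := Nat.sInf_mem (s := {m | ∃ (σ : List (Vtx n) → Fin m → Vtx n) (x : ℤ),
      Far σ x ∧ Beats s σ x}) ⟨s * n, σ, _, h1, h2 _ h1⟩
    exact lower' hs hn σ' x h3 h4
  · obtain ⟨σ', h3⟩ := Nat.sInf_mem (s := {m | ∃ σ : List (Vtx n) → Fin m → Vtx n,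
      ∀ x : ℤ, Far σ x → Beats s σ x}) ⟨s * n, σ, h2⟩
    obtain ⟨x, hx⟩ := (Set.finite_range fun c => (σ' [] c).1.1 - 2 * n).bddBelow
    have hF : Far σ' x := fun c => by
      have := hx ⟨c, rfl⟩
      simp only at this
      omega
    exact lower' hs hn σ' x hF (h3 x hF)

end Pool.Agent.Lib.MP_3e1e08_co
end
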